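import Pool.Agent.Run7.h784.TG.Def

/-!
# The twist by a constant stays in the family
-/

set_option autoImplicit false
set_option linter.all false

open Polynomial
open Pool.Agent.N352.PJ (dsc GoodR Fam Ht)

namespace Run7.h784.TG

/-- The discriminant of `f.scaleRoots r` for monic `f` of degree `2 g + 1` and `r ≠ 0`. -/
theorem dsc_scale {k : Type} [Field k] {g : ℕ} {f : k[X][X]} (hm : f.Monic)
    (hd : f.natDegree = 2 * g + 1) {r : k[X]} (hr : r ≠ 0) :
    dsc g (f.scaleRoots r) = r ^ ((2 * g + 1) * (2 * g)) * dsc g f := by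
  let E := AlgebraicClosure (FractionRing k[X])
  let φ : k[X] →+* E := (algebraMap (FractionRing k[X]) E).comp (algebraMap k[X] (FractionRing k[X]))
  have hφ : Function.Injective φ :=
    (algebraMap (FractionRing k[X]) E).injective.comp (IsFractionRing.injective k[X] _)
  apply hφ
  have hmE : (f.map φ).Monic := hm.map φ
  have hdE : (f.map φ).natDegree = 2 * g + 1 := by rw [hm.natDegree_map, hd]
  have hrE : φ r ≠ 0 := by
    intro h
    exact hr (hφ (by rw [h, map_zero]))
  have hs : (f.map φ).Splits := IsAlgClosed.splits _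
  have hmap : (f.scaleRoots r).map φ = (f.map φ).scaleRoots (φ r) :=
    map_scaleRoots _ _ _ (by rw [hm.leadingCoeff, map_one]; exact one_ne_zero)
  have hdd : ∀ p : E[X], p.natDegree = 2 * g + 1 → (derivative p).natDegree ≤ 2 * g := by
    intro p hp
    refine (natDegree_derivative_le p).trans (by omega)
  have e1 : φ (dsc g f) = ((f.map φ).roots.map (derivative (f.map φ)).eval).prod := by
    unfold dsc
    rw [← resultant_map_map, ← derivative_map, ← hdE, resultant_eq_prod_eval _ _ _
      (by simpa only [hdE] using hdd _ hdE) hs, hmE.leadingCoeff, one_pow, one_mul]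
  have hsm : ((f.map φ).scaleRoots (φ r)).Monic := (monic_scaleRoots_iff _).2 hmE
  have hsd : ((f.map φ).scaleRoots (φ r)).natDegree = 2 * g + 1 := by
    rw [natDegree_scaleRoots, hdE]
  have e2 : φ (dsc g (f.scaleRoots r)) = (((f.map φ).scaleRoots (φ r)).roots.map
      (derivative ((f.map φ).scaleRoots (φ r))).eval).prod := by
    unfold dsc
    rw [← resultant_map_map, ← derivative_map, hmap]
    conv_lhs => rw [← hsd]
    rw [resultant_eq_prod_eval _ _ _ (by exact hdd _ hsd) (hs.scaleRoots _), hsm.leadingCoeff,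
      one_pow, one_mul]
  have hder : ∀ x : E, (derivative ((f.map φ).scaleRoots (φ r))).eval (φ r * x) =
      φ r ^ (2 * g) * (derivative (f.map φ)).eval x := by
    intro x
    rw [eval_eq_sum_range' (n := 2 * g + 1) (by have := hdd _ hsd; omega),
      eval_eq_sum_range' (n := 2 * g + 1) (by have := hdd _ hdE; omega), Finset.mul_sum]
    refine Finset.sum_congr rfl fun i hi => ?_
    have hi' : i < 2 * g + 1 := Finset.mem_range.1 hi
    rw [coeff_derivative, coeff_scaleRoots, coeff_derivative, hdE, mul_pow,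
      show 2 * g + 1 - (i + 1) = 2 * g - i by omega]
    have h3 : φ r ^ (2 * g) = φ r ^ (2 * g - i) * φ r ^ i := by
      rw [← pow_add]; congr 1; omega
    rw [h3]
    ring
  rw [map_mul, map_pow, e1, e2, roots_scaleRoots _ (isUnit_iff_ne_zero.mpr hrE), Multiset.map_map]
  have e3 : (derivative ((f.map φ).scaleRoots (φ r))).eval ∘ (fun x => φ r * x) =
      fun x => φ r ^ (2 * g) * (derivative (f.map φ)).eval x := by
    funext x
    exact hder x
  rw [e3, Multiset.prod_map_mul, Multiset.map_const', Multiset.prod_replicate,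
    ← hs.natDegree_eq_card_roots, hdE]
  congr 1
  rw [← pow_mul, mul_comm]

/-- The twist by a constant stays in the family. -/
theorem fm_scale {k : Type} [Field k] {g N : ℕ} {r : k[X]} {f : k[X][X]} (h : Fm g N r f) {u : k}
    (hu : u ≠ 0) : Fm g N (r.scaleRoots u) (f.scaleRoots (C u)) := by
  have hdr : r.natDegree = 2 * g + 1 := h.gr.2.2.1
  refine ⟨h.g1, h.n1, h.two, ⟨(monic_scaleRoots_iff _).2 h.gr.1, ?_, ?_, ?_⟩,
    ⟨⟨(monic_scaleRoots_iff _).2 h.fam.ht.mon, ?_, ?_, ?_⟩, ?_, ?_, ?_⟩⟩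
  · -- irreducible
    have h1 : r.scaleRoots u = C (u ^ (2 * g + 1)) * r.comp (C u⁻¹ * X) := by
      ext i
      rw [coeff_scaleRoots, hdr, coeff_C_mul, comp_C_mul_X_coeff]
      by_cases hi : i ≤ 2 * g + 1
      · have h3 : u ^ (2 * g + 1) = u ^ (2 * g + 1 - i) * u ^ i := by
          rw [← pow_add]; congr 1; omega
        have h4 : u ^ i * (u⁻¹) ^ i = 1 := by rw [← mul_pow, mul_inv_cancel₀ hu, one_pow]
        linear_combination (-r.coeff i * (u⁻¹) ^ i) * h3 - r.coeff i * u ^ (2 * g + 1 - i) * h4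
      · rw [coeff_eq_zero_of_natDegree_lt (by omega)]
        simp
    have hu' : u⁻¹ ≠ 0 := inv_ne_zero hu
    letI := invertibleOfNonzero hu'
    let e : k[X] ≃ₐ[k] k[X] := algEquivCMulXAddC u⁻¹ 0
    have h2 : r.comp (C u⁻¹ * X) = e r := by
      simp only [e, algEquivCMulXAddC_apply, map_zero, add_zero, comp_eq_aeval]
    rw [h1, h2]
    have h3 : IsUnit (C (u ^ (2 * g + 1)) : k[X]) := isUnit_C.2 (isUnit_iff_ne_zero.2 (pow_ne_zero _ hu))
    rw [irreducible_isUnit_mul h3]
    exact (MulEquiv.irreducible_iff e.toMulEquiv).2 h.gr.2.1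
  · rw [natDegree_scaleRoots, hdr]
  · rw [coeff_scaleRoots, h.gr.2.2.2, zero_mul]
  · rw [natDegree_scaleRoots, h.fam.ht.deg]
  · rw [coeff_scaleRoots, h.fam.ht.tr, zero_mul]
  · intro j hj
    rw [coeff_scaleRoots, ← C_pow]
    refine (natDegree_mul_le).trans ?_
    rw [natDegree_C, add_zero]
    exact h.fam.ht.ht j hj
  · intro j hj
    rw [coeff_scaleRoots, coeff_scaleRoots, h.fam.ht.deg, hdr, ← C_pow, coeff_mul_C, h.fam.inf j hj]
  · intro Q hQ
    exact absurd hQ (Finset.notMem_empty Q)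
  · rw [dsc_scale h.fam.ht.mon h.fam.ht.deg (C_ne_zero.2 hu), ← C_pow]
    have h3 : IsUnit (C (u ^ ((2 * g + 1) * (2 * g))) : k[X]) :=
      isUnit_C.2 (isUnit_iff_ne_zero.2 (pow_ne_zero _ hu))
    exact (Associated.squarefree_iff ⟨h3.unit, by rw [IsUnit.unit_spec, mul_comm]⟩).1 h.fam.sq

end Run7.h784.TG
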