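import Pool.Agent.Run7.h784.TG.Def

/-!
# Project TG: statements of the pieces (helper784)

Every piece is a `def P_X : Prop`; please prove `theorem T_X : P_X` (or `T_X (h : P_Y) .. : P_X` with the
dependencies named in the docstring) in `Pool/Agent/Run7/h<you>/TG/X.lean`.
`n = 2 g + 1` throughout.
-/

set_option autoImplicit false
set_option linter.all false

open Polynomial IsDedekindDomain
open scoped Classical

namespace Run7.h784.TG

open Pool.Agent.N874.PP (Ov Ev Sq1 S_CLS)
open Pool.Agent.N352.PJ (IsGen Crd LocIm SelZero Fam GoodR Ht dsc)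
open Run7.h875.TS (chi cd IsPC GSq irrD dg NRs uT sqf prD sqL sz Tr S_DOUBLE S_TRS)

/-! ### Local algebra -/

/-- **LOCQ** (about 400 lines). The primes over `Q ∤ dsc`.

Proof. `O = k[X][θ]` (`S_INT`, proved: `N769.PJ.int`), so the primes over `Q` are the
`(Q, φ(θ))`, `φ` the monic irreducible factors of `f` modulo `Q` (distinct, as `Q ∤ dsc`), with residue
field of degree `deg φ`, all unramified (`Q` is a uniformizer). (1), (2): from `a b ≡ f` and
`Bézout`: exactly one of `a(θ)`, `b(θ)` is in `𝔓`. (3) parity: the norm of a unit `s` at `Q` is modulo `Q` the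
product of the norms of its residue classes, and the norm of a nonsquare of a finite field is a
nonsquare; an even element is a square times a unit at all `𝔓` over `Q` (approximation). Compare
`N227.PJ.ns`, `N227.PJ.parq`, `N765.PJ.exq`. (4) valuations of `α` are those of `- D b(θ)`, `a(θ)` up to
squares. (5) `∑ deg φ` over the `φ ∣ a` is `deg a`, even, `n` is odd. -/
def P_LOCQ : Prop := ∀ (k K L O : Type) [Field k] [Finite k] [Field K] [Algebra k[X] K]
  [IsFractionRing k[X] K]
  [Field L] [Algebra K L] [Algebra k[X] L] [IsScalarTower k[X] K L] [CommRing O]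
  [IsDedekindDomain O] [Algebra O L] [IsFractionRing O L] [Algebra k[X] O]
  [IsScalarTower k[X] O L] [IsIntegralClosure O k[X] L] (g N : ℕ) (r : k[X]) (f : k[X][X]) (θ : L),
  Fm g N r f → IsGen g K f θ →
  ∀ Q : k[X], Q.Monic → Irreducible Q → ¬ Q ∣ dsc g f →
  {𝔓 : HeightOneSpectrum O | Ov Q 𝔓}.Finite ∧ (∃ 𝔓 : HeightOneSpectrum O, Ov Q 𝔓) ∧
  (∀ a b : k[X][X], a.Monic → b.Monic → (∀ j, Q ∣ (f - a * b).coeff j) →
    ∀ 𝔓 : HeightOneSpectrum O, Ov Q 𝔓 →
      (𝔓.valuation L (eval₂ (algebraMap k[X] L) θ a) < 1 ∧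
        𝔓.valuation L (eval₂ (algebraMap k[X] L) θ b) = 1) ∨
      (𝔓.valuation L (eval₂ (algebraMap k[X] L) θ a) = 1 ∧
        𝔓.valuation L (eval₂ (algebraMap k[X] L) θ b) < 1)) ∧
  (∀ s : L, s ≠ 0 → IsSquare (Algebra.norm K s) → (∀ 𝔓 : HeightOneSpectrum O, Ov Q 𝔓 → Ev 𝔓 s) →
    Even {𝔓 : HeightOneSpectrum O | Ov Q 𝔓 ∧ ¬ Sq1 𝔓 s}.ncard) ∧
  (∀ (w : k[X]) (x : L), ¬ Q ∣ w → x ≠ 0 → LocW O f θ Q (Q * w) x →
    ((∀ 𝔓 : HeightOneSpectrum O, Ov Q 𝔓 → Ev 𝔓 x) → Tr O Q x) ∧
    ∃ 𝔓 : HeightOneSpectrum O, Ov Q 𝔓 ∧ Ev 𝔓 x)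

/-- **GRP** (about 250 lines, from LOCQ (3) and `S_CLS` = `N539.PP.cls`). The conditions form a group.

Proof: for factorisations `f ≡ a b`, `f ≡ a' b'` modulo `P` let `a'' ≡ (a a') / gcd(a, a') ^ 2`, of even
degree, `b'' ≡ f / a''` (work in `(k[X] / P)[X]`, lift). If `𝔓` is in neither `a` nor `a'` then
`a a' ≡ a'' gcd ^ 2`. If `𝔓 ∣ a(θ)`, `𝔓 ∤ a'(θ)`, then `- D b a' ~ - D b''` since `b a' b''` is a
square up to units (`b'' = gcd(b, b') gcd(a, a')`, `b a' = b'' * gcd(b, a') ^ 2`..). If `𝔓` is in both: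
`D ^ 2 b b' ~ a''`. Squares satisfy the conditions with `a = 1`, `b = f`. -/
def P_GRP : Prop := ∀ (k K L O : Type) [Field k] [Finite k] [Field K] [Algebra k[X] K]
  [IsFractionRing k[X] K]
  [Field L] [Algebra K L] [Algebra k[X] L] [IsScalarTower k[X] K L] [CommRing O]
  [IsDedekindDomain O] [Algebra O L] [IsFractionRing O L] [Algebra k[X] O]
  [IsScalarTower k[X] O L] [IsIntegralClosure O k[X] L] (g N : ℕ) (r : k[X]) (f : k[X][X]) (θ : L),
  Fm g N r f → IsGen g K f θ →
  (∀ P : k[X], P.Monic → Irreducible P → ¬ P ∣ dsc g f → ∀ w : k[X], ¬ P ∣ w →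
    ∀ x y : L, x ≠ 0 → y ≠ 0 → LocW O f θ P (P * w) x → LocW O f θ P (P * w) y →
      LocW O f θ P (P * w) (x * y)) ∧
  ∀ (S : Finset k[X]) (u : k[X] → k[X]), GoodT g f S u →
    (∀ α : Lˣ, α ∈ SelG O K f θ S u ↔ SelC O K f θ S u (α : L)) ∧ sqL L ≤ SelG O K f θ S u

/-- **CLSU** (about 80 lines). The conditions depend only on the classes of the `u P` modulo `P` up to
squares. -/
def P_CLSU : Prop := ∀ (k K L O : Type) [Field k] [Finite k] [Field K] [Algebra k[X] K]
  [IsFractionRing k[X] K]
  [Field L] [Algebra K L] [Algebra k[X] L] [IsScalarTower k[X] K L] [CommRing O]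
  [IsDedekindDomain O] [Algebra O L] [IsFractionRing O L] [Algebra k[X] O]
  [IsScalarTower k[X] O L] [IsIntegralClosure O k[X] L] (g N : ℕ) (r : k[X]) (f : k[X][X]) (θ : L),
  Fm g N r f → IsGen g K f θ → ∀ (S : Finset k[X]) (u u' : k[X] → k[X]),
  GoodT g f S u → GoodT g f S u' → (∀ P ∈ S, ∃ z : k[X], P ∣ z ^ 2 * u P - u' P) →
  ∀ α : L, SelC O K f θ S u α → SelC O K f θ S u' α

/-! ### Reciprocity -/

/-- **REC** (about 800 lines, adapt N655/PJ/Gl.lean, Gl1.lean, N622/PJ/Rec*.lean: `S_GL`, `S_REC` of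
N352/PJ/Loc.lean, where only primes with factor type `(1, 2 g)` occur; `S_PRY`, `S_LAT`, `S_LTI`, `S_RED`,
`S_WT`, `S_NW`, `S_DET`, `S_HYP` are general and proved, see N352/PJ/Final.lean for their names).

Proof. `y = s x` has square norm and satisfies `LocW` at the `P` in `S` (GRP); it is even outside
`S ∪ {Q}`. For `P` in `S ∪ {Q}` let `T_P` be the set of primes over `P` where `y` (for `Q`: `x`) is odd, it is
`{𝔓 : a_P(θ) ∈ 𝔓}` of total degree `d_P = deg a_P`, even. Global Lagrangian for `y` (as in `S_GL` with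
`T = ⋃ T_P`, `P` the product of the `P` with `d_P > 0`, form `c_{2g}(P x x' / y)`, half dimension
`∑ d_P deg P / 2`). Explicit Lagrangian at `P`: in `κ[x] / (a_P)` the polynomials of degree `< d_P / 2` for
the form `top coefficient of (x x')`, i.e. `Tr(x x' / a_P'(θ))`, which compares with the class
`- D b_P(θ)` of `LocW` since `f' = a_P' b_P` at the zeros of `a_P`. `S_PRY` says that the two classes differ
at an even number of `𝔓`; for `y` at the `P` in `S` they agree at all `𝔓`, at `Q` they differ exactly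
where `s` is not a square. -/
def P_REC : Prop := ∀ (k K L O : Type) [Field k] [Finite k] [Field K] [Algebra k[X] K]
  [IsFractionRing k[X] K]
  [Field L] [Algebra K L] [Algebra k[X] L] [IsScalarTower k[X] K L] [CommRing O]
  [IsDedekindDomain O] [Algebra O L] [IsFractionRing O L] [Algebra k[X] O]
  [IsScalarTower k[X] O L] [IsIntegralClosure O k[X] L] (g N : ℕ) (r : k[X]) (f : k[X][X]) (θ : L),
  Fm g N r f → IsGen g K f θ → ∀ (S : Finset k[X]) (u : k[X] → k[X]) (Q w : k[X]),
  GoodT g f S u → Q.Monic → Irreducible Q → Q ∉ S → ¬ Q ∣ dsc g f → ¬ Q ∣ w →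
  ∀ s x : L, SelC O K f θ S u s → SelC O K f θ (insert Q S) (Function.update u Q w) x →
    Even {𝔓 : HeightOneSpectrum O | Ov Q 𝔓 ∧ ¬ Ev 𝔓 x ∧ ¬ Sq1 𝔓 s}.ncard

/-- **STEP** (about 350 lines, from LOCQ, GRP, REC, `S_CLS`). The effect of one more prime `Q` on the
Selmer group `G = SelG S u`, `G' = SelG (insert Q S) (update u Q w)`; `T` = the elements trivial at `Q`.

Proof. `G' ⊓ T ≤ G` since elements trivial at `Q` are even there. To `s` in `G` attach the vector
`χ(s) ∈ F_2 ^ (primes over Q)` of the `𝔓` where it is not a square: a homomorphism with kernel `G ⊓ T`; to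
`x` in `G'` the vector `v(x)` of the `𝔓` where it is odd: a homomorphism with kernel `G' ⊓ T` (LOCQ (5)).
`χ(s)` is orthogonal to `v(x)` (REC) and to `(1, .., 1)` (LOCQ (4)), and `(1, .., 1)` is not of the form `v(x)`
(LOCQ (5)). So `dim χ(G) + dim v(G') + 1 ≤ nr`. If `nr = 1` then `v(G') = 0`, `G' ≤ T`. -/
def P_STEP : Prop := ∀ (k K L O : Type) [Field k] [Finite k] [Field K] [Algebra k[X] K]
  [IsFractionRing k[X] K]
  [Field L] [Algebra K L] [Algebra k[X] L] [IsScalarTower k[X] K L] [CommRing O]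
  [IsDedekindDomain O] [Algebra O L] [IsFractionRing O L] [Algebra k[X] O]
  [IsScalarTower k[X] O L] [IsIntegralClosure O k[X] L] (g N : ℕ) (r : k[X]) (f : k[X][X]) (θ : L),
  Fm g N r f → IsGen g K f θ → ∀ (S : Finset k[X]) (u : k[X] → k[X]), GoodT g f S u →
  sz (SelG O K f θ S u) ≠ 0 →
  ∀ Q : k[X], Q.Monic → Irreducible Q → Q ∉ S → ¬ Q ∣ dsc g f → ∀ w : k[X], ¬ Q ∣ w →
  1 ≤ nr O Q ∧ ∃ T : Subgroup Lˣ, (∀ α : Lˣ, α ∈ T ↔ Tr O Q (α : L)) ∧ sqL L ≤ T ∧
    SelG O K f θ (insert Q S) (Function.update u Q w) ⊓ T ≤ SelG O K f θ S u ∧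
    (nr O Q = 1 → SelG O K f θ (insert Q S) (Function.update u Q w) ≤ SelG O K f θ S u) ∧
    sz (SelG O K f θ S u) ≤ 2 ^ (nr O Q - 1) * sz (SelG O K f θ S u ⊓ T) ∧
    sz (SelG O K f θ (insert Q S) (Function.update u Q w)) * sz (SelG O K f θ S u) ≤
      2 ^ (nr O Q - 1) * sz (SelG O K f θ S u ⊓ T) ^ 2

/-- **REP** (about 400 lines, adapt the proof of `S_REP` of project TS, `Run7/*/TS`). Small
representatives; finiteness. Every class is even outside `S`, so `div α = 2 A + B`, `B` reduced and
supported over `S` (and at infinity), `deg B ≤ n (dg S) + const`; Riemann's inequality. -/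
def P_REP : Prop := ∀ (k K L O : Type) [Field k] [Finite k] [Field K] [Algebra k[X] K]
  [IsFractionRing k[X] K]
  [Field L] [Algebra K L] [Algebra k[X] L] [IsScalarTower k[X] K L] [CommRing O]
  [IsDedekindDomain O] [Algebra O L] [IsFractionRing O L] [Algebra k[X] O]
  [IsScalarTower k[X] O L] [IsIntegralClosure O k[X] L] (g N : ℕ) (r : k[X]) (f : k[X][X]) (θ : L),
  Fm g N r f → IsGen g K f θ →
  (∃ C₀ : ℕ, ∀ (S : Finset k[X]) (u : k[X] → k[X]), GoodT g f S u → ∀ α : L,
    SelC O K f θ S u α →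
    ∃ (ρ : L) (z : Fin (2 * g + 1) → k[X]), ρ ≠ 0 ∧ Crd g θ z (α * ρ ^ 2) ∧
      ∀ i, (z i).natDegree ≤ C₀ * (1 + dg S)) ∧
  ∀ (S : Finset k[X]) (u : k[X] → k[X]), GoodT g f S u →
    (∀ α : Lˣ, α ∈ SelG O K f θ S u ↔ SelC O K f θ S u (α : L)) → sz (SelG O K f θ S u) ≠ 0

/-! ### The local image at the primes of the twist -/

/-- The factor of type `j`: the number of the roots of `u` at distance less than `w D` from `D t`, for `t`
in the algebraic closure. -/
noncomputable def nearA {E : Type} [Field E] (w : Valuation (AlgebraicClosure E) NNReal) (D : E)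
    (u : E[X]) (t : AlgebraicClosure E) : ℕ :=
  (u.map (algebraMap E (AlgebraicClosure E))).roots.countP fun x =>
    w (x - algebraMap E (AlgebraicClosure E) D * t) < w (algebraMap E (AlgebraicClosure E) D)

/-- **E3** (about 500 lines, adapt N195/PJ/E2: `S_E2` of N352/PJ/Loc.lean, the case of the factor type
`(1, 2 g)`). The local image of the twist by `D`, `w D` the generator of the value group, over a complete
field `E` (here an extension of `K_Q` in which `f` has the root `t i`): `θ 0, .., θ 2g` are the roots of `f`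
in the algebraic closure, integral with distinct reductions, `θ i₀` in `E`.

Let `A` be the set of the `i` with odd `nearA .. (θ i)`. If `∑` over `i ∈ A` is even (`A.card` even) put
`A' = A`, otherwise `A' = Aᶜ`. The class of `u(D θ i₀)` is that of `- D ∏_{j ∉ A'} (θ i₀ - θ j)` if `i₀ ∈ A'`
and of `∏_{j ∈ A'} (θ i₀ - θ j)` if `i₀ ∉ A'`.

Proof as in `S_E2`: let `F = prd D θ = ∏ (X - D θ_i)`. Factor `u` over `E` according to the distance of its
roots to the `D θ_i` (`X` with `|x| > |D|`; the residue discs). The roots `x` with `|x| ≤ |D|` not near a `D θ_i`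
contribute a square (`S_B1`), those with `|x| > |D|` contribute `± x (1 + ..)`, and `x` is a square times
`v ^ 2`-values as `F(x) = x ^ n (1 + ..)`; near ones: `D θ i₀ - x ~ D (θ i₀ - θ j)`; and for `j = i₀` use
`v ^ 2 = F(x)`. -/
def P_E3 : Prop := ∀ (E : Type) [Field E] (w : Valuation (AlgebraicClosure E) NNReal) (c : NNReal),
  Pool.Agent.N352.PJ.CV E w c → ∀ (g : ℕ) (D : E) (f : E[X])
  (θ : Fin (2 * g + 1) → AlgebraicClosure E) (i₀ : Fin (2 * g + 1)) (t : E) (u v : E[X]),
  1 ≤ g → w (algebraMap E (AlgebraicClosure E) D) = c →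
  (f.map (algebraMap E (AlgebraicClosure E)) =
    ∏ i, (X - C (algebraMap E (AlgebraicClosure E) D * θ i))) →
  θ i₀ = algebraMap E (AlgebraicClosure E) t →
  (∀ i, w (θ i) ≤ 1) → (∀ i j, i ≠ j → w (θ i - θ j) = 1) →
  u.Monic → IsCoprime u f → u ∣ v ^ 2 - f →
  ∀ A : Finset (Fin (2 * g + 1)),
    ((∀ i, i ∈ A ↔ Odd (nearA w D u (θ i))) ∨ (∀ i, i ∉ A ↔ Odd (nearA w D u (θ i)))) →
    Even A.card → ∀ e : E,
    (i₀ ∈ A → algebraMap E (AlgebraicClosure E) e =
      ∏ j ∈ Aᶜ, (θ i₀ - θ j) → IsSquare ((-1) ^ u.natDegree * u.eval (D * t) * (-D * e))) ∧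
    (i₀ ∉ A → algebraMap E (AlgebraicClosure E) e =
      ∏ j ∈ A, (θ i₀ - θ j) → IsSquare ((-1) ^ u.natDegree * u.eval (D * t) * e))

/-- **LOCW** (about 500 lines, from E3, adapt N704/PJ/Loc2: `S_LOC2`). The local condition implies the
explicit one at the primes of the twist. `near` is constant on the roots of each factor of `f` modulo
`Q` (Galois action, `S_EQ`), so the set `A` of E3 gives a factor `a` of `f` modulo `Q`, of even degree;
it is the same for all `𝔓` over `Q` (`E = O`-completion at `𝔓`, an extension of `K_Q`). -/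
def P_LOCW : Prop := ∀ (k K L O : Type) [Field k] [Finite k] [Field K] [Algebra k[X] K]
  [IsFractionRing k[X] K]
  [Field L] [Algebra K L] [Algebra k[X] L] [IsScalarTower k[X] K L] [CommRing O]
  [IsDedekindDomain O] [Algebra O L] [IsFractionRing O L] [Algebra k[X] O]
  [IsScalarTower k[X] O L] [IsIntegralClosure O k[X] L] (g N : ℕ) (r : k[X]) (f : k[X][X]) (θ : L),
  Fm g N r f → IsGen g K f θ →
  ∀ (Q : k[X]) (v : HeightOneSpectrum k[X]), Q.Monic → Irreducible Q → ¬ Q ∣ dsc g f →
  v.asIdeal = Ideal.span {Q} → ∀ (D' : k[X]) (h : K[X]), ¬ Q ∣ D' →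
    aeval (algebraMap k[X] L (Q * D') * θ) h ≠ 0 →
    LocIm v (f.scaleRoots (Q * D')) h →
    LocW O f θ Q (Q * D') (aeval (algebraMap k[X] L (Q * D') * θ) h)

/-- **CONC** (about 150 lines, from LOCW and `S_LOC1` = `N704.PJ.loc1 ..`, see N352/PJ/Final.lean and the end
of N352/PJ/Tw.lean). If all elements with the Selmer conditions are squares, the 2-Selmer group of the
twist is zero. -/
def P_CONC : Prop := ∀ (k K L O : Type) [Field k] [Finite k] [Field K] [Algebra k[X] K]
  [IsFractionRing k[X] K]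
  [Field L] [Algebra K L] [Algebra k[X] L] [IsScalarTower k[X] K L] [CommRing O]
  [IsDedekindDomain O] [Algebra O L] [IsFractionRing O L] [Algebra k[X] O]
  [IsScalarTower k[X] O L] [IsIntegralClosure O k[X] L] (g N : ℕ) (r : k[X]) (f : k[X][X]) (θ : L),
  Fm g N r f → IsGen g K f θ → ∀ D : k[X], D.Monic → Squarefree D →
  (∀ P : k[X], Irreducible P → P ∣ D → ¬ P ∣ dsc g f) →
  (∀ α : L, SelC O K f θ (prD D) (fun P => D / P) α → IsSquare α) →
  SelZero K (f.scaleRoots D)

/-! ### The geometric Galois group -/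

/-- **MINK** (about 500 lines). The rational function field over an algebraically closed field has no
finite separable extension `M ≠ k'(X)` which is unramified everywhere, also at infinity. Here `B` is the
integral closure of `k'[X]`, `B'` that of `k'[X]` for the second structure `X ↦ 1 / X`; unramified: every
prime of `k'[X]` generates a squarefree ideal.

Proof (lattices): the trace form on `B` is unimodular, also at infinity. Reduce a basis of `B` with
respect to the values at the infinite places (`S_RED` of N352/PJ/Lat.lean is such a reduction for the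
weights `wtn`): weights `w_i`, `∑ w_i = 0`, no `w_i < 0` (a function without poles with a zero is zero), so
all `w_i = 0`: `B` has a basis of functions without poles, i.e. of constants, which lie in `k'`. Or: with
Riemann's inequality and the degree of the different (search the tree: Hurwitz, genus of function
fields, `FF.riemann`), or with any other method: e.g. every geometrically connected unramified cover
has a rational point over all finite fields ... Choose your own route; the statement may be changed in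
agreement with the holder of FULL. -/
def P_MINK : Prop := ∀ (k' K' M B B' : Type) [Field k'] [IsAlgClosed k'] [Field K']
  [Algebra k'[X] K'] [IsFractionRing k'[X] K'] [Field M] [Algebra K' M] [FiniteDimensional K' M]
  [Algebra.IsSeparable K' M] [CommRing B] [IsDedekindDomain B] [Algebra B M] [IsFractionRing B M]
  [Algebra k'[X] B] [Algebra k'[X] M] [IsScalarTower k'[X] K' M] [IsScalarTower k'[X] B M]
  [IsIntegralClosure B k'[X] M]
  [CommRing B'] [IsDedekindDomain B'] [Algebra B' M] [IsFractionRing B' M]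
  (ψ : k'[X] →+* B'),
  (∀ p : k'[X], algebraMap B' M (ψ p) =
    p.eval₂ ((algebraMap K' M).comp ((algebraMap k'[X] K').comp C)) (algebraMap k'[X] M X)⁻¹) →
  (∀ x : B', ψ.IsIntegralElem x) → IsIntegrallyClosed B' →
  (∀ (c : k') (𝔓 : HeightOneSpectrum B), algebraMap k'[X] B (X - C c) ∈ 𝔓.asIdeal →
    algebraMap k'[X] B (X - C c) ∉ 𝔓.asIdeal ^ 2) →
  (∀ 𝔓 : HeightOneSpectrum B', ψ X ∈ 𝔓.asIdeal → ψ X ∉ 𝔓.asIdeal ^ 2) →
  Module.finrank K' M = 1

/-- **FULL** (about 500 lines, from MINK or otherwise). The geometric Galois group of the family is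
the symmetric group.

Proof. Over `k'` algebraically closed: `f` is irreducible over `k'(X)`: if `f = f₁ f₂` then
`Res(f₁, f₂) ^ 2 ∣ dsc`, so it is constant, but it has degree `2 N deg f₁ deg f₂ > 0` (separable at infinity).
The inertia groups at the finite primes are trivial or generated by a transposition (`dsc` squarefree: at
a zero `τ` of `dsc` the polynomial `f(τ, ·)` has exactly one double root), the place at infinity is
unramified. Let `G₀` be the subgroup generated by the transpositions in `G`: it is normal, its fixed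
field is unramified everywhere, so `G₀ = G` (MINK). A transitive group generated by transpositions is
the symmetric group (Mathlib: `Equiv.Perm.closure_isSwap`, `MulAction` results on swaps and blocks). -/
def P_FULL : Prop := ∀ (k : Type) [Field k] [Finite k] (g N : ℕ) (r : k[X]) (f : k[X][X]),
  Fm g N r f → Full f

end Run7.h784.TG
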