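import Pool.Agent.Run7.h784.TG.One2

/-!
# ONE, third part (project TG, helper784)
-/

set_option autoImplicit false
set_option linter.all false

open Polynomial IsDedekindDomain
open scoped Classical

namespace Run7.h784.TG

open Pool.Agent.N874.PP (Ov Ev Sq1 S_CLS)
open Pool.Agent.N352.PJ (IsGen Crd LocIm SelZero Fam GoodR Ht dsc)
open Run7.h875.TS (chi cd IsPC GSq irrD dg NRs uT sqf prD sqL sz Tr S_DOUBLE S_TRS)
open Run7.h784.TS (chi_zero chi_ne chi_cases chi_mul chi_le le_chi relIndex_eq_card card_zeros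
  card_minpoly)

section main

variable {k K L O : Type} [Field k] [Finite k] [Field K] [Algebra k[X] K]
  [IsFractionRing k[X] K]
  [Field L] [Algebra K L] [Algebra k[X] L] [IsScalarTower k[X] K L] [CommRing O]
  [IsDedekindDomain O] [Algebra O L] [IsFractionRing O L] [Algebra k[X] O]
  [IsScalarTower k[X] O L] [IsIntegralClosure O k[X] L] {g N₀ : ℕ} {ρ : k[X]} {f : k[X][X]} {θ : L}

variable {S : Finset k[X]} {u : k[X] → k[X]} {N : ℕ} {ι : Type} [Fintype ι]
  {r : ι → Lˣ} {z : ι → Fin (2 * g + 1) → k[X]} {i₀ : ι}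

/-- The main term. -/
noncomputable def RR {F : Type} [Field F] [Fintype F] [Algebra k F] (f : k[X][X])
    (z : ι → Fin (2 * g + 1) → k[X]) (t : F) : ℝ :=
  Fintype.card ι * (3 + chi (aeval t (C ((-1) ^ g) * dsc g f))) / 4 +
        XX f z t * (5 - chi (aeval t (C ((-1) ^ g) * dsc g f))) / 4

/-- The constant for the trivial bound. -/
noncomputable def KK (g : ℕ) : ℝ := g * (2 ^ (2 * g + 1)) ^ 2

theorem KK_nonneg (g : ℕ) : 0 ≤ KK g := by unfold KK; positivity

theorem abs_XX_le (hf : f.Monic) (hd : f.natDegree = 2 * g + 1) {F : Type} [Field F] [Fintype F]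
    [Algebra k F] (z : ι → Fin (2 * g + 1) → k[X]) (t : F) :
    |XX f z t| ≤ Fintype.card ι * KK g := by
  unfold XX
  refine (Finset.abs_sum_le_sum_abs _ _).trans ?_
  calc _ ≤ ∑ i : ι, KK g := Finset.sum_le_sum fun i _ => abs_DD_le hf hd (z i) t
    _ = _ := by simp

theorem RR_ge (hf : f.Monic) (hd : f.natDegree = 2 * g + 1) {F : Type} [Field F] [Fintype F]
    [Algebra k F] (z : ι → Fin (2 * g + 1) → k[X]) (t : F) :
    -(2 * KK g * (Fintype.card ι : ℝ)) ≤ RR f z t := by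
  unfold RR
  have h1 := (abs_le.1 (abs_XX_le (ι := ι) hf hd z t)).1
  have h0 : (0 : ℝ) ≤ Fintype.card ι := by positivity
  have h2 : 0 ≤ Fintype.card ι * KK g := mul_nonneg h0 (KK_nonneg g)
  rcases chi_cases (aeval t (C ((-1) ^ g) * dsc g f)) with h3 | h3 | h3 <;> rw [h3] <;> linarith

theorem sum_RR {F : Type} [Field F] [Fintype F] [Algebra k F] {C₂ : ℕ} (hF : Fm g N₀ ρ f)
    (h : IsGen g K f θ) (hC : WU K L g f θ C₂ F) (hr : Reps g O K f θ S u N r z i₀) :
    ∑ t : F, RR f z t ≤ (3 / 4 * Fintype.card ι + 5 / 4 * g) * cd F +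
      (Fintype.card ι * (C₂ * (1 + (dsc g f).natDegree)) / 4 +
      5 / 4 * (g * C₂ + Fintype.card ι * (g * (C₂ * (1 + N)))) +
      Fintype.card ι * (g * (C₂ * (1 + N + (dsc g f).natDegree))) / 4) * √(cd F) := by
  have e0 : ∑ t : F, chi (aeval t (C ((-1) ^ g) * dsc g f)) ≤
      C₂ * (1 + (dsc g f).natDegree) * √(cd F) := by
    have e : ∑ t : F, chi (aeval t (C ((-1) ^ g) * dsc g f)) =
        chi ((-1 : F) ^ g) * ∑ t : F, chi (aeval t (dsc g f)) := by
      rw [Finset.mul_sum]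
      exact Finset.sum_congr rfl fun t _ => sgn_eq t f
    rw [e]
    have h5 := mul_le_mul (abs_chi_pm (F := F) (g := g)) hC.a0 (abs_nonneg _) zero_le_one
    rw [← abs_mul, one_mul] at h5
    exact (abs_le.1 h5).2
  have e2 := sum_XX h hC hr.crd hr.deg (fun i => (hr.sel i).nsq) hr.one hr.z0
  have e3 := sum_sXX hF h hC hr.crd hr.deg (fun i => (hr.sel i).nsq) hr.one hr.z0
  have e4 : ∑ t : F, RR f z t = 3 / 4 * Fintype.card ι * cd F +
      Fintype.card ι / 4 * ∑ t : F, chi (aeval t (C ((-1) ^ g) * dsc g f)) +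
      5 / 4 * ∑ t : F, XX f z t -
      1 / 4 * ∑ t : F, chi (aeval t (C ((-1) ^ g) * dsc g f)) * XX f z t := by
    have : cd F = ∑ t : F, (1 : ℝ) := by
      unfold cd
      simp
    rw [this]
    simp only [Finset.mul_sum]
    rw [← Finset.sum_add_distrib, ← Finset.sum_add_distrib, ← Finset.sum_sub_distrib]
    apply Finset.sum_congr rfl
    intro t _
    unfold RR
    ring
  rw [e4]
  have h0 : (0 : ℝ) ≤ Fintype.card ι := by positivity
  have e5 := mul_le_mul_of_nonneg_left e0 h0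
  nlinarith [e0, e2, e3, e5]

theorem one_aux (hSTK : P_STK) (hDIC : P_DIC) (hSTEP : P_STEP) (hGRP : P_GRP) (hF : Fm g N₀ ρ f)
    (h : IsGen g K f θ)
    (hG : GoodT g f S u) (hr : Reps g O K f θ S u N r z i₀) (hs : sz (SelG O K f θ S u) ≠ 0)
    {F : Type} [Field F] [Fintype F] [Algebra k F] {C₂ : ℕ} (hC : WU K L g f θ C₂ F)
    {m : ℕ} (hm : Module.finrank k F = m)
    (hT : ∀ φ : k[X] → ℝ, (m : ℝ) * ∑ Q ∈ irrD k m, φ Q =
      ∑ t ∈ Finset.univ.filter fun t : F => (minpoly k t).natDegree = m, φ (minpoly k t))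
    (hT' : ((Finset.univ.filter fun t : F => (minpoly k t).natDegree ≠ m).card : ℝ) ≤ 2 * √(cd F))
    (w : k[X] → k[X]) (hw : ∀ Q : k[X], Irreducible Q → ¬ Q ∣ w Q) :
    (m : ℝ) * ∑ Q ∈ (irrD k m).filter (fun Q => Q ∉ S ∧ ¬ Q ∣ dsc g f),
        (sz (SelG O K f θ (insert Q S) (Function.update u Q (w Q))) : ℝ) ≤
      ∑ t : F, RR f z t + 3 / 2 * 2 ^ (2 * g + 1) * (Fintype.card ι *
        (((4 * g + 1) * (N + cdg f) : ℕ) : ℝ)) +
        2 * KK g * Fintype.card ι * (2 * √(cd F) + dg S + (dsc g f).natDegree) := by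
  rw [Finset.sum_filter, hT, Finset.sum_filter]
  have h0 : (0 : ℝ) ≤ Fintype.card ι := by positivity
  have hK := KK_nonneg g
  have hKc : 0 ≤ 2 * KK g * (Fintype.card ι : ℝ) := by positivity
  have key : ∀ t : F, (if (minpoly k t).natDegree = m then
      (if minpoly k t ∉ S ∧ ¬ minpoly k t ∣ dsc g f then
        (sz (SelG O K f θ (insert (minpoly k t) S)
          (Function.update u (minpoly k t) (w (minpoly k t)))) : ℝ) else 0) else 0) ≤
      RR f z t + 3 / 2 * (2 ^ (2 * g + 1) * ZZ f z t) + 2 * KK g * Fintype.card ι *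
        ((if (minpoly k t).natDegree ≠ m then 1 else 0) + (if minpoly k t ∈ S then 1 else 0) +
          (if aeval t (dsc g f) = 0 then 1 else 0)) := by
    intro t
    have hZ := ZZ_nonneg f z t
    have hZ' : (0 : ℝ) ≤ 3 / 2 * (2 ^ (2 * g + 1) * ZZ f z t) := by positivity
    have hR := RR_ge h.mon h.deg z t
    have hint : IsIntegral k t := Algebra.IsIntegral.isIntegral t
    have hQi : Irreducible (minpoly k t) := minpoly.irreducible hint
    have E1 : (0 : ℝ) ≤ (if (minpoly k t).natDegree ≠ m then 1 else 0) := by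
      split_ifs <;> norm_num
    have E2 : (0 : ℝ) ≤ (if minpoly k t ∈ S then 1 else 0) := by
      split_ifs <;> norm_num
    have E3 : (0 : ℝ) ≤ (if aeval t (dsc g f) = 0 then 1 else 0) := by
      split_ifs <;> norm_num
    by_cases c1 : (minpoly k t).natDegree = m
    · by_cases c2 : minpoly k t ∉ S ∧ ¬ minpoly k t ∣ dsc g f
      · rw [if_pos c1, if_pos c2]
        have := place hSTK hDIC hSTEP hGRP hF h hG hr hs t (c1.trans hm.symm) c2.1 c2.2 (hw _ hQi)
        rw [hr.card] at this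
        refine this.trans ?_
        have : 0 ≤ 2 * KK g * (Fintype.card ι : ℝ) *
            ((if (minpoly k t).natDegree ≠ m then 1 else 0) +
            (if minpoly k t ∈ S then 1 else 0) + (if aeval t (dsc g f) = 0 then 1 else 0)) := by
          positivity
        unfold RR
        linarith
      · rw [if_pos c1, if_neg c2]
        by_cases c3 : minpoly k t ∈ S
        · rw [if_pos c3]
          have : 2 * KK g * (Fintype.card ι : ℝ) * 1 ≤ 2 * KK g * (Fintype.card ι : ℝ) *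
              ((if (minpoly k t).natDegree ≠ m then 1 else 0) +
            1 + (if aeval t (dsc g f) = 0 then 1 else 0)) := by
            apply mul_le_mul_of_nonneg_left _ hKc
            linarith
          linarith
        · have c4 : minpoly k t ∣ dsc g f := by
            by_contra c4
            exact c2 ⟨c3, c4⟩
          have c5 : aeval t (dsc g f) = 0 := by
            obtain ⟨v, hv⟩ := c4
            rw [hv, map_mul, minpoly.aeval, zero_mul]
          rw [if_pos c5]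
          have : 2 * KK g * (Fintype.card ι : ℝ) * 1 ≤ 2 * KK g * (Fintype.card ι : ℝ) *
              ((if (minpoly k t).natDegree ≠ m then 1 else 0) +
            (if minpoly k t ∈ S then 1 else 0) + 1) := by
            apply mul_le_mul_of_nonneg_left _ hKc
            linarith
          linarith
    · rw [if_neg c1]
      rw [if_pos c1]
      have : 2 * KK g * (Fintype.card ι : ℝ) * 1 ≤ 2 * KK g * (Fintype.card ι : ℝ) *
              (1 + (if minpoly k t ∈ S then 1 else 0) +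
                (if aeval t (dsc g f) = 0 then 1 else 0)) := by
        apply mul_le_mul_of_nonneg_left _ hKc
        linarith
      linarith
  refine (Finset.sum_le_sum fun t _ => key t).trans ?_
  rw [Finset.sum_add_distrib, Finset.sum_add_distrib, ← Finset.mul_sum, ← Finset.mul_sum,
    ← Finset.mul_sum,
    Finset.sum_add_distrib, Finset.sum_add_distrib, Finset.sum_boole, Finset.sum_boole,
    Finset.sum_boole]
  have f1 := sum_ZZ (F := F) h hr.crd hr.deg
  have f2 : ((Finset.univ.filter fun t : F => minpoly k t ∈ S).card : ℝ) ≤ dg S := by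
    exact_mod_cast card_minpoly S (fun P hP => (hG.irr P hP).ne_zero)
  have f3 : ((Finset.univ.filter fun t : F => aeval t (dsc g f) = 0).card : ℝ) ≤
      (dsc g f).natDegree := by
    exact_mod_cast card_zeros (dsc_ne hF)
  have f4 : 2 * KK g * (Fintype.card ι : ℝ) *
      (((Finset.univ.filter fun t : F => (minpoly k t).natDegree ≠ m).card : ℝ) +
      ((Finset.univ.filter fun t : F => minpoly k t ∈ S).card : ℝ) +
      ((Finset.univ.filter fun t : F => aeval t (dsc g f) = 0).card : ℝ)) ≤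
      2 * KK g * (Fintype.card ι : ℝ) * (2 * √(cd F) + dg S + (dsc g f).natDegree) := by
    apply mul_le_mul_of_nonneg_left _ hKc
    linarith
  have f5 : (3 : ℝ) / 2 * (2 ^ (2 * g + 1) * ∑ t : F, ZZ f z t) ≤ 3 / 2 * 2 ^ (2 * g + 1) *
      (Fintype.card ι * (((4 * g + 1) * (N + cdg f) : ℕ) : ℝ)) := by
    rw [mul_assoc]
    gcongr
  linarith

end main

theorem T_ONE (hW : P_W) (hSTK : P_STK) (hTRS : S_TRS) (hDIC : P_DIC) (hSTEP : P_STEP)
    (hREP : P_REP) (hGRP : P_GRP) : P_ONE := by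
  intro k K L O _ _ _ _ _ _ _ _ _ _ _ _ _ _ _ _ g N₀ ρ f θ hF hfull h
  obtain ⟨⟨C₁, hC₁⟩, hfin⟩ := hREP k K L O g N₀ ρ f θ hF h
  obtain ⟨C₂, hC₂⟩ := exists_WU (K := K) (L := L) hW hF hfull h
  obtain ⟨κ, hκ⟩ : ∃ κ : ℕ, κ = g * (2 ^ (2 * g + 1)) ^ 2 := ⟨_, rfl⟩
  have hκ' : KK g = κ := by rw [hκ]; unfold KK; push_cast; ring
  obtain ⟨lam, hlam⟩ : ∃ l : ℕ, l = 2 ^ (2 * g + 1) * (4 * g + 1) := ⟨_, rfl⟩
  refine ⟨C₂ * (1 + (dsc g f).natDegree) + 2 * (g * C₂) + 2 * (g * C₂) * (1 + C₁) +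
    g * C₂ * (1 + C₁ + (dsc g f).natDegree) + 2 * lam * (C₁ + cdg f) +
    2 * κ * (3 + (dsc g f).natDegree), ?_⟩
  intro S u hG w hw m hm
  have hs : sz (SelG O K f θ S u) ≠ 0 := hfin S u hG
    ((hGRP k K L O g N₀ ρ f θ hF h).2 S u hG).1
  obtain ⟨ι, _, r, z, i₀, hr⟩ := exists_reps (N := C₁ * (1 + dg S)) hGRP hF h hG
    (fun α hα => hC₁ S u hG α hα) hs
  obtain ⟨F, _, _, _, hF1, hF2, hF3, hF4⟩ := hTRS k m hm
  have e1 := one_aux hSTK hDIC hSTEP hGRP hF h hG hr hs (hC₂ F) hF1 hF3 hF4 w hw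
  have e2 := sum_RR hF h (hC₂ F) hr
  have hcard := hr.card
  have hs1 : (1 : ℝ) ≤ Fintype.card ι := by
    rw [← hcard]
    exact_mod_cast Nat.one_le_iff_ne_zero.2 hs
  rw [hcard, ← hF2]
  have hq : (1 : ℝ) ≤ cd F := by
    rw [hF2]
    apply one_le_pow₀
    exact_mod_cast (Nat.card_pos : 0 < Nat.card k)
  have hM : (1 : ℝ) ≤ √(cd F) := by
    rw [Real.one_le_sqrt]
    exact hq
  refine e1.trans ?_
  refine (add_le_add_left (add_le_add_left e2 _) _).trans ?_
  rw [hκ']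
  have elam : (3 : ℝ) / 2 * 2 ^ (2 * g + 1) * (Fintype.card ι *
      (((4 * g + 1) * (C₁ * (1 + dg S) + cdg f) : ℕ) : ℝ)) =
      3 / 2 * (lam : ℝ) * (Fintype.card ι * (C₁ * (1 + dg S) + cdg f)) := by
    rw [hlam]
    push_cast
    ring
  rw [elam]
  push_cast
  generalize hs_def : (Fintype.card ι : ℝ) = s at *
  generalize hM_def : √(cd F) = M at *
  generalize hG_def : (dg S : ℝ) = G at *
  generalize hD_def : ((dsc g f).natDegree : ℝ) = D at *
  generalize hE_def : (cdg f : ℝ) = E at *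
  generalize hc₁_def : (C₁ : ℝ) = c₁ at *
  generalize hc₂_def : (C₂ : ℝ) = c₂ at *
  generalize hg_def : (g : ℝ) = γ at *
  generalize hk_def : (κ : ℝ) = κ' at *
  generalize hl_def : (lam : ℝ) = l at *
  have hGn : 0 ≤ G := by rw [← hG_def]; positivity
  have hD : 0 ≤ D := by rw [← hD_def]; positivity
  have hE : 0 ≤ E := by rw [← hE_def]; positivity
  have hc1 : 0 ≤ c₁ := by rw [← hc₁_def]; positivity
  have hc2 : 0 ≤ c₂ := by rw [← hc₂_def]; positivity
  have hγ : 0 ≤ γ := by rw [← hg_def]; positivity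
  have hkn : 0 ≤ κ' := by rw [← hk_def]; positivity
  have hl : 0 ≤ l := by rw [← hl_def]; positivity
  have hs0 : 0 ≤ s := by linarith
  have hM0 : 0 ≤ M := by linarith
  obtain ⟨V, hV⟩ : ∃ V, V = (1 + G) * M * s := ⟨_, rfl⟩
  have hV0 : 0 ≤ V := by rw [hV]; positivity
  have v1 : M * s ≤ V := by
    rw [hV]
    nlinarith [mul_nonneg hGn (mul_nonneg hM0 hs0)]
  have v2 : M ≤ V := by nlinarith [mul_nonneg hM0 (sub_nonneg.2 hs1)]
  have v3 : s * (1 + G) ≤ V := by
    rw [hV]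
    nlinarith [mul_nonneg (mul_nonneg hs0 (by linarith : (0 : ℝ) ≤ 1 + G)) (sub_nonneg.2 hM)]
  have v4 : s ≤ V := by nlinarith [mul_nonneg hs0 hGn]
  have v5 : s * G ≤ V := by nlinarith [mul_nonneg hs0 hGn]
  have w1 : c₂ * (1 + D) * (M * s) ≤ c₂ * (1 + D) * V :=
    mul_le_mul_of_nonneg_left v1 (by positivity)
  have w2 : γ * c₂ * M ≤ γ * c₂ * V := mul_le_mul_of_nonneg_left v2 (by positivity)
  have w3 : γ * c₂ * (M * s) ≤ γ * c₂ * V := mul_le_mul_of_nonneg_left v1 (by positivity)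
  have w3' : γ * c₂ * (1 + D) * (M * s) ≤ γ * c₂ * (1 + D) * V :=
    mul_le_mul_of_nonneg_left v1 (by positivity)
  have w4 : l * c₁ * (s * (1 + G)) ≤ l * c₁ * V := mul_le_mul_of_nonneg_left v3 (by positivity)
  have w5 : l * E * s ≤ l * E * V := mul_le_mul_of_nonneg_left v4 (by positivity)
  have w6 : κ' * D * s ≤ κ' * D * V := mul_le_mul_of_nonneg_left v4 (by positivity)
  have w7 : κ' * (M * s) ≤ κ' * V := mul_le_mul_of_nonneg_left v1 hkn
  have w8 : κ' * (s * G) ≤ κ' * V := mul_le_mul_of_nonneg_left v5 hkn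
  have x1 : 0 ≤ c₂ * (1 + D) * V := by positivity
  have x2 : 0 ≤ γ * c₂ * V := by positivity
  have x3 : 0 ≤ γ * c₂ * c₁ * V := by positivity
  have x4 : 0 ≤ γ * c₂ * (1 + D) * V := by positivity
  have x5 : 0 ≤ l * c₁ * V := by positivity
  have x6 : 0 ≤ l * E * V := by positivity
  have x7 : 0 ≤ κ' * V := by positivity
  have x8 : 0 ≤ κ' * D * V := by positivity
  have x9 : 0 ≤ γ * c₂ * D * V := by positivity
  have main : (s * (c₂ * (1 + D)) / 4 + 5 / 4 * (γ * c₂ + s * (γ * (c₂ * (1 + c₁ * (1 + G))))) +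
      s * (γ * (c₂ * (1 + c₁ * (1 + G) + D))) / 4) * M +
      3 / 2 * l * (s * (c₁ * (1 + G) + E)) + 2 * κ' * s * (2 * M + G + D) ≤
      (c₂ * (1 + D) + 2 * (γ * c₂) + 2 * (γ * c₂) * (1 + c₁) + γ * c₂ * (1 + c₁ + D) +
        2 * l * (c₁ + E) + 2 * κ' * (3 + D)) * V := by
    have y1 : (s * (c₂ * (1 + D)) / 4 + 5 / 4 * (γ * c₂ + s * (γ * (c₂ * (1 + c₁ * (1 + G))))) +
      s * (γ * (c₂ * (1 + c₁ * (1 + G) + D))) / 4) * M =
      1 / 4 * (c₂ * (1 + D) * (M * s)) + 5 / 4 * (γ * c₂ * M) + 5 / 4 * (γ * c₂ * (M * s)) +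
      5 / 4 * (γ * c₂ * c₁ * V) + 1 / 4 * (γ * c₂ * (1 + D) * (M * s)) +
      1 / 4 * (γ * c₂ * c₁ * V) := by
      rw [hV]; ring
    have y2 : 3 / 2 * l * (s * (c₁ * (1 + G) + E)) = 3 / 2 * (l * c₁ * (s * (1 + G))) +
      3 / 2 * (l * E * s) := by ring
    have y3 : 2 * κ' * s * (2 * M + G + D) = 4 * (κ' * (M * s)) + 2 * (κ' * (s * G)) +
      2 * (κ' * D * s) := by ring
    have y4 : (c₂ * (1 + D) + 2 * (γ * c₂) + 2 * (γ * c₂) * (1 + c₁) + γ * c₂ * (1 + c₁ + D) +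
        2 * l * (c₁ + E) + 2 * κ' * (3 + D)) * V = c₂ * (1 + D) * V + 4 * (γ * c₂ * V) +
        3 * (γ * c₂ * c₁ * V) + γ * c₂ * (1 + D) * V +
        2 * (l * c₁ * V) + 2 * (l * E * V) + 6 * (κ' * V) + 2 * (κ' * D * V) := by ring
    rw [y1, y2, y3, y4]
    linarith
  have e9 : (c₂ * (1 + D) + 2 * (γ * c₂) + 2 * (γ * c₂) * (1 + c₁) + γ * c₂ * (1 + c₁ + D) +
        2 * l * (c₁ + E) + 2 * κ' * (3 + D)) * (1 + G) * M * s =
      (c₂ * (1 + D) + 2 * (γ * c₂) + 2 * (γ * c₂) * (1 + c₁) + γ * c₂ * (1 + c₁ + D) +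
        2 * l * (c₁ + E) + 2 * κ' * (3 + D)) * V := by
    rw [hV]; ring
  rw [e9]
  linarith

end Run7.h784.TG
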