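import Pool.Agent.Run7.h784.TG.StmA
import Pool.Agent.Run7.h784.TS.Sqf

/-!
# SQF3: squarefree polynomials have positive density, also in characteristic 3
-/

set_option autoImplicit false
set_option linter.all false

open Polynomial
open Run7.h875.TS Run7.h784.TS.SQF
open scoped Classical

namespace Run7.h784.TG

theorem T_SQF3 : P_SQF3 := by
  intro k _ _ h2 B hB
  have hfin : ∀ N, (sqf B N).Finite := fun N =>
    (mon N).1.subset fun f hf => ⟨hf.1, hf.2.1⟩
  refine ⟨hfin, ?_⟩
  have hq3 := three_le h2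
  set q : ℝ := (Nat.card k : ℝ) with hq
  have hq3' : (3 : ℝ) ≤ q := by rw [hq]; exact_mod_cast hq3
  have hq0 : (0 : ℝ) < q := by linarith
  refine ⟨1 / 4 * (1 / q) ^ B.natDegree, by positivity, 2 * B.natDegree + 4, ?_⟩
  intro n hn
  have hA := le_AA B hB n (by omega)
  have hbad := bad B hB n
  have hsplit : (AA B n).ncard ≤ (sqf B n).ncard + {f ∈ AA B n | ¬ Squarefree f}.ncard := by
    refine (Set.ncard_le_ncard (t := sqf B n ∪ {f ∈ AA B n | ¬ Squarefree f}) ?_
      ((hfin n).union ((fin_AA B n).subset (Set.sep_subset _ _)))).trans (Set.ncard_union_le _ _)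
    intro f hf
    by_cases hs : Squarefree f
    · left
      refine ⟨hf.1, hf.2.1, hs, ?_⟩
      obtain ⟨g, hg⟩ := hf.2.2
      exact ⟨1, -g, by linear_combination hg⟩
    · right
      exact ⟨hf, hs⟩
  have h3 : (q : ℝ) ^ (n - B.natDegree) ≤ ((sqf B n).ncard : ℝ) +
      ∑ j ∈ Finset.Icc 1 (n / 2), q ^ j * q ^ (n - (B.natDegree + 2 * j)) := by
    have : Nat.card k ^ (n - B.natDegree) ≤ (sqf B n).ncard +
      ∑ j ∈ Finset.Icc 1 (n / 2), Nat.card k ^ j * Nat.card k ^ (n - (B.natDegree + 2 * j)) := by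
      omega
    rw [hq]
    exact_mod_cast this
  have h4 : ∑ j ∈ Finset.Icc 1 (n / 2), q ^ j * q ^ (n - (B.natDegree + 2 * j)) ≤
      q ^ (n - B.natDegree) * (1 / 2) + 2 * q ^ (n / 2) := by
    have h5 : ∀ j ∈ Finset.Icc 1 (n / 2), q ^ j * q ^ (n - (B.natDegree + 2 * j)) ≤
        q ^ (n - B.natDegree) * (1 / q) ^ j + q ^ j := by
      intro j _
      by_cases hj : B.natDegree + 2 * j ≤ n
      · have e : q ^ j * q ^ (n - (B.natDegree + 2 * j)) = q ^ (n - B.natDegree) * (1 / q) ^ j := by
          rw [one_div, inv_pow, eq_mul_inv_iff_mul_eq₀ (by positivity), ← pow_add, ← pow_add]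
          congr 1
          omega
        rw [e]
        have : 0 ≤ q ^ j := by positivity
        linarith
      · have e : n - (B.natDegree + 2 * j) = 0 := by omega
        rw [e, pow_zero, mul_one]
        have : 0 ≤ q ^ (n - B.natDegree) * (1 / q) ^ j := by positivity
        linarith
    refine (Finset.sum_le_sum h5).trans ?_
    rw [Finset.sum_add_distrib, ← Finset.mul_sum]
    have h6 := sum_inv (x := 1 / q) (by positivity)
      (by rw [div_le_div_iff₀ hq0 (by norm_num)]; linarith) (n / 2)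
    have h7 := sum_pow (q := q) (by linarith) (n / 2)
    have h8 : 0 ≤ (1 / q) ^ (n / 2) := by positivity
    have h9 : q ^ (n - B.natDegree) * ∑ j ∈ Finset.Icc 1 (n / 2), (1 / q) ^ j ≤
        q ^ (n - B.natDegree) * (1 / 2) :=
      mul_le_mul_of_nonneg_left (by linarith) (by positivity)
    linarith
  have h5 : 9 * q ^ (n / 2) ≤ q ^ (n - B.natDegree) := by
    have e : q ^ (n - B.natDegree) = q ^ (n - B.natDegree - n / 2 - 2) * q ^ 2 * q ^ (n / 2) := by
      rw [← pow_add, ← pow_add]
      congr 1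
      omega
    rw [e]
    apply mul_le_mul_of_nonneg_right _ (by positivity)
    have h6 : (1 : ℝ) ≤ q ^ (n - B.natDegree - n / 2 - 2) := one_le_pow₀ (by linarith)
    have h7 : (9 : ℝ) ≤ q ^ 2 := by nlinarith
    nlinarith
  have h6 : 1 / 4 * (1 / q) ^ B.natDegree * q ^ n = 1 / 4 * q ^ (n - B.natDegree) := by
    rw [one_div q, inv_pow, mul_assoc]
    congr 1
    rw [inv_mul_eq_iff_eq_mul₀ (by positivity), ← pow_add]
    congr 1
    omega
  rw [h6]
  have h7 : 0 < q ^ (n - B.natDegree) := by positivity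
  linarith

end Run7.h784.TG
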