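import Pool.Agent.Run7.h784.TG.One3
import Pool.Agent.Run7.h784.TG.SQF3
import Pool.Agent.Run7.h646.TG.LOCQ
import Pool.Agent.Run7.h779.TG.GRP
import Pool.Agent.Run7.h779.TG.STEP
import Pool.Agent.Run7.h779.TG.COMB
import Pool.Agent.Run7.h286.TG.REC
import Pool.Agent.Run7.h811.TG.GLG
import Pool.Agent.Run7.h382.TG.REP
import Pool.Agent.Run7.h382.TG.AVG
import Pool.Agent.Run7.h81.TG.E3
import Pool.Agent.Run7.h81.TG.CONC
import Pool.Agent.Run7.h711.TG.LOCW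
import Pool.Agent.Run7.h781.TG.FULL
import Pool.Agent.Run7.h760.TG.STK
import Pool.Agent.Run7.h973.TG.DIC
import Pool.Agent.Run7.h973.TG.LAST
import Pool.Agent.Run7.h908.TG.KILL
import Pool.Agent.Run7.h68.TG.FIN
import Pool.Agent.Run7.h437.TS.TRS
import Pool.Agent.Run7.h886.TG.W
import Pool.Agent.Run7.h688.TG.NSQ2

/-!
# Assembly of project TG

All pieces together: the theorem for every polynomial of the family `Fm`.
-/

set_option autoImplicit false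

open Polynomial
open Pool.Agent.N352.PJ (SelZero dsc)

namespace Run7.h784.TG

theorem aLOCQ : P_LOCQ := Run7.h646.TG.T_LOCQ

theorem aGRP : P_GRP := Run7.h779.TG.T_GRP aLOCQ

theorem aCLSU : P_CLSU := Run7.h779.TG.T_CLSU

theorem aREC : P_REC := Run7.h286.TG.T_REC Run7.h811.TG.glg'

theorem aSTEP : P_STEP := Run7.h779.TG.T_STEP aLOCQ aGRP aREC

theorem aREP : P_REP := Run7.h382.TG.REP.T_REP

theorem aCONC : P_CONC := Run7.h81.TG.conc (Pool.Agent.Run7.h711.TG.T_LOCW Run7.h81.TG.e3)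

theorem aDIC : P_DIC := Run7.h973.TG.T_DIC aLOCQ

theorem aONE (hW : P_W) : P_ONE :=
  T_ONE hW Run7.h760.TG.stk Run7.h437.TS.trs aDIC aSTEP aREP aGRP

theorem aAVG (hW : P_W) : P_AVG :=
  Run7.h382.TG.AVG.T_AVG (aONE hW) aSTEP aREP aGRP Run7.h437.TS.trs aDIC

theorem aKILL (hW : P_W) : P_KILL :=
  Run7.h908.TG.kill hW Run7.h760.TG.stk aDIC Run7.h779.TG.T_COMB

theorem aLAST (hW : P_W) : P_LAST :=
  Run7.h973.TG.T_LAST hW aDIC Run7.h779.TG.T_COMB Run7.h760.TG.stk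

theorem aFIN (hW : P_W) : P_FIN :=
  Run7.h68.TG.T_FIN (aAVG hW) (aKILL hW) (aLAST hW) aSTEP aCLSU aCONC aREP aGRP

theorem aW : P_W := Run7.h886.TG.T_W Run7.h688.TG.T_NSQ2

theorem fin (k : Type) [Field k] [Finite k] (g N : ℕ) (r : k[X]) (f : k[X][X]) (hf : Fm g N r f)
    (K : Type) [Field K] [Algebra k[X] K] [IsFractionRing k[X] K] :
    ∃ c : ℝ, 0 < c ∧ ∃ N₀ : ℕ, ∀ m ≥ N₀, c * (Nat.card k : ℝ) ^ m ≤
      ({D : k[X] | D.Monic ∧ D.natDegree = m ∧ Squarefree D ∧ IsCoprime D (dsc g f) ∧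
        SelZero K (f.scaleRoots D)}.ncard : ℝ) :=
  aFIN aW k g N r f hf (Run7.h781.TG.T_FULL k g N r f hf) K

end Run7.h784.TG
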