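import Pool.Agent.N352.PJ.Idx
import Pool.Agent.Run7.h875.TS.StmA

/-!
# Project TG: a positive proportion of the twists of a hyperelliptic Jacobian of genus `g` over `k(t)`

Definitions (helper784). The case `g = 1` is project TS (`Pool/Agent/Run7/h875/TS`), the library for
genus `g` is project PJ (`Pool/Agent/N352/PJ`).

`k` is a finite field of odd characteristic, `K = Frac k[X]`, `L = K(θ)` of degree `n = 2 g + 1`,
`f(θ) = 0`, `O` the integral closure of `k[X]` in `L`.
-/

set_option autoImplicit false
set_option linter.all false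

open Polynomial IsDedekindDomain
open scoped Classical

namespace Run7.h784.TG

open Pool.Agent.N874.PP (Ov Ev Sq1)
open Pool.Agent.N352.PJ (IsGen Crd LocIm SelZero Fam GoodR Ht dsc)
open Run7.h875.TS (chi cd IsPC GSq irrD dg NRs uT sqf prD sqL sz Tr)

/-- The family: `f` monic of degree `2 g + 1`, irreducible at infinity, squarefree discriminant. -/
structure Fm {k : Type} [Field k] (g N : ℕ) (r : k[X]) (f : k[X][X]) : Prop where
  g1 : 1 ≤ g
  n1 : 1 ≤ N
  two : (2 : k) ≠ 0
  gr : GoodR g r
  fam : Fam g N r ∅ (fun _ => 0) f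

/-- The map `k[X] → W` which belongs to the fraction field `K'` of `k'[X]` and `W ⊇ K'`. -/
noncomputable def big (k k' K' W : Type) [Field k] [Field k'] [Algebra k k'] [Field K']
    [Algebra k'[X] K'] [Field W] [Algebra K' W] : k[X] →+* W :=
  (algebraMap K' W).comp ((algebraMap k'[X] K').comp (mapRingHom (algebraMap k k')))

/-- The geometric Galois group of `f` is the full symmetric group. -/
def Full {k : Type} [Field k] (f : k[X][X]) : Prop :=
  ∀ (k' : Type) [Field k'] [IsAlgClosed k'] [Algebra k k'] [Algebra.IsAlgebraic k k']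
    (K' W : Type) [Field K'] [Algebra k'[X] K'] [IsFractionRing k'[X] K'] [Field W] [Algebra K' W]
    [IsAlgClosure K' W] (σ : Equiv.Perm {x : W // eval₂ (big k k' K' W) x f = 0}),
    ∃ τ : W ≃ₐ[K'] W, ∀ x : {x : W // eval₂ (big k k' K' W) x f = 0}, τ (x : W) = (σ x : W)

/-! ### Selmer conditions -/

section sel

variable {k L : Type} [Field k] [Field L] [Algebra k[X] L] (O : Type) [CommRing O]
  [IsDedekindDomain O] [Algebra O L] [IsFractionRing O L] [Algebra k[X] O]

/-- The explicit local condition at a prime `P ∤ dsc` for the twist by `D`, `P` divides `D` exactly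
once: for some factorisation `f ≡ a b` modulo `P` with `deg a` even, `α` has the class of
`- D b(θ)` at the primes over `P` with `a(θ) ≡ 0` and that of `a(θ)` at the others. -/
def LocW (f : k[X][X]) (θ : L) (P D : k[X]) (α : L) : Prop :=
  ∃ a b : k[X][X], a.Monic ∧ b.Monic ∧ Even a.natDegree ∧ (∀ j, P ∣ (f - a * b).coeff j) ∧
    ∀ 𝔓 : HeightOneSpectrum O, Ov P 𝔓 →
      (𝔓.valuation L (eval₂ (algebraMap k[X] L) θ a) < 1 →
        Sq1 𝔓 (α * (algebraMap k[X] L (-D) * eval₂ (algebraMap k[X] L) θ b))) ∧
      (𝔓.valuation L (eval₂ (algebraMap k[X] L) θ a) = 1 →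
        Sq1 𝔓 (α * eval₂ (algebraMap k[X] L) θ a))

/-- A finite set `S` of monic irreducible polynomials prime to the discriminant, and for each `P` in
`S` a polynomial `u P` prime to `P` (the local twist at `P` is the one by `P * u P`). -/
structure GoodT {k : Type} [Field k] (g : ℕ) (f : k[X][X]) (S : Finset k[X]) (u : k[X] → k[X]) :
    Prop where
  mon : ∀ P ∈ S, P.Monic
  irr : ∀ P ∈ S, Irreducible P
  nd : ∀ P ∈ S, ¬ P ∣ dsc g f
  nu : ∀ P ∈ S, ¬ P ∣ u P

/-- The Selmer conditions: norm a square, even valuations outside `S`, `LocW` at the `P` in `S`.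
(At infinity there is no condition: `L` is inert there.) -/
structure SelC (K : Type) [Field K] [Algebra K L] (f : k[X][X]) (θ : L) (S : Finset k[X])
    (u : k[X] → k[X]) (α : L) : Prop where
  ne : α ≠ 0
  nsq : IsSquare (Algebra.norm K α)
  ev : ∀ P : k[X], P.Monic → Irreducible P → P ∉ S → ∀ 𝔓 : HeightOneSpectrum O, Ov P 𝔓 → Ev 𝔓 α
  tw : ∀ P ∈ S, LocW O f θ P (P * u P) α

/-- The Selmer group (it contains the squares). -/
def SelG (K : Type) [Field K] [Algebra K L] (f : k[X][X]) (θ : L) (S : Finset k[X])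
    (u : k[X] → k[X]) : Subgroup Lˣ :=
  Subgroup.closure {α : Lˣ | SelC O K f θ S u (α : L)}

end sel

/-- The number of the primes over `Q`. -/
noncomputable def nr {k : Type} [Field k] (O : Type) [CommRing O] [IsDedekindDomain O]
    [Algebra k[X] O] (Q : k[X]) : ℕ := {𝔓 : HeightOneSpectrum O | Ov Q 𝔓}.ncard

/-! ### Factorisations over a field -/

section fac

variable {k W : Type} [Field k] [Field W]

/-- The factorisations of `f` over `W` into monic factors of degrees `c i`. -/
def FacR (φ : k[X] →+* W) (f : k[X][X]) {l : ℕ} (c : Fin l → ℕ) : Set (Fin l → W[X]) :=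
  {a | (∀ i, (a i).Monic ∧ (a i).natDegree = c i) ∧ ∏ i, a i = f.map φ}

/-- The polynomial with the coefficients `φ (z i)`. -/
noncomputable def zp (φ : k[X] →+* W) {m : ℕ} (z : Fin m → k[X]) : W[X] :=
  ∑ i, C (φ (z i)) * X ^ (i : ℕ)

/-- The product of the values of `p` at the roots of the monic polynomial `a`. -/
noncomputable def nv (a p : W[X]) : W := Algebra.norm W (AdjoinRoot.mk a p)

/-- The tuple of monic polynomials of degrees `c i` given by the point `y`. -/
noncomputable def mdl (φ : k[X] →+* W) {l : ℕ} (c : Fin l → ℕ) (D : k[X])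
    (A : Fin l → ℕ → k[X][X]) (y : W) (i : Fin l) : W[X] :=
  X ^ (c i) + ∑ j ∈ Finset.range (c i), C (eval₂ φ y (A i j) / φ D) * X ^ j

end fac

/-- `H` is a plane model of the curve of the factorisations of `f` of type `c`. -/
structure IsMd {k : Type} [Field k] (f : k[X][X]) {l : ℕ} (c : Fin l → ℕ) (H : k[X][X]) (D : k[X])
    (A : Fin l → ℕ → k[X][X]) : Prop where
  pc : IsPC H D
  bij : ∀ (W : Type) [Field W] (φ : k[X] →+* W), φ D ≠ 0 →
    Set.BijOn (mdl φ c D A) {y | eval₂ φ y H = 0} (FacR φ f c)

/-- The compositions of `m` with `l` parts. -/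
def cmp (m l : ℕ) : Finset (Fin l → ℕ) :=
  (Fintype.piFinset fun _ : Fin l => Finset.Icc 1 m).filter fun c => ∑ i, c i = m

section fin

variable {k F : Type} [Field k] [Field F] [Algebra k F]

/-- Evaluation at `t`. -/
noncomputable def evt (t : F) : k[X] →+* F := (aeval t : k[X] →ₐ[k] F).toRingHom

/-- The number of irreducible factors of `f` at `t`. -/
noncomputable def nf (f : k[X][X]) (t : F) : ℕ :=
  Multiset.card (UniqueFactorizationMonoid.normalizedFactors (f.map (evt t)))

/-- The monic divisors of even degree of `f` at `t`. -/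
def evd (f : k[X][X]) (t : F) : Set F[X] := {a | a.Monic ∧ a ∣ f.map (evt t) ∧ Even a.natDegree}

end fin

end Run7.h784.TG
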