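import Pool.Agent.Run7.h784.TG.StmA
import Pool.Agent.N615.JB.Alg

/-!
# Project TG: basic facts on `nv` (helper784)

`nv a p` is the resultant; multiplicativity; the norm polynomial `nrm`.
-/

set_option autoImplicit false
set_option linter.all false

open Polynomial
open scoped Classical

namespace Run7.h784.TG

open Pool.Agent.N352.PJ (IsGen Crd dsc)

section nv

variable {W : Type} [Field W]

theorem nv_roots (Ω : Type) [Field Ω] [Algebra W Ω] (a p : W[X]) (ha : a.Monic)
    (hs : (a.map (algebraMap W Ω)).Splits) :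
    algebraMap W Ω (nv a p) = ((a.map (algebraMap W Ω)).roots.map fun e => aeval e p).prod :=
  Pool.Agent.N615.JB.nrm W Ω a p ha hs

theorem nv_eq (a p : W[X]) (ha : a.Monic) (n : ℕ) (hn : p.natDegree ≤ n) :
    nv a p = resultant a p a.natDegree n := by
  apply (algebraMap W (AlgebraicClosure W)).injective
  rw [nv_roots _ a p ha (IsAlgClosed.splits _), ← resultant_map_map]
  have h1 := resultant_eq_prod_eval (a.map (algebraMap W (AlgebraicClosure W)))
    (p.map (algebraMap W (AlgebraicClosure W))) n (by rw [natDegree_map]; exact hn)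
    (IsAlgClosed.splits _)
  rw [natDegree_map, (ha.map _).leadingCoeff, one_pow, one_mul] at h1
  rw [h1]
  congr 1
  refine Multiset.map_congr rfl fun e _ => ?_
  rw [eval_map, ← aeval_def]

theorem nv_mul (a b p : W[X]) (ha : a.Monic) (hb : b.Monic) : nv (a * b) p = nv a p * nv b p := by
  rw [nv_eq _ p (ha.mul hb) _ le_rfl, nv_eq _ p ha _ le_rfl, nv_eq _ p hb _ le_rfl,
    ha.natDegree_mul hb, ← resultant_mul_left _ _ _ _ le_rfl]

theorem nv_one (p : W[X]) : nv 1 p = 1 := by
  have h := nv_mul 1 1 p monic_one monic_one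
  rw [mul_one] at h
  have h2 : nv 1 p ≠ 0 := by
    intro h0
    have h3 := nv_roots (AlgebraicClosure W) 1 p monic_one (by rw [Polynomial.map_one]; exact Splits.one)
    rw [h0, map_zero, Polynomial.map_one, roots_one] at h3
    simp at h3
  exact (mul_right_cancel₀ h2 (by rw [one_mul]; exact h)).symm

theorem nv_prod {ι : Type} (s : Finset ι) (a : ι → W[X]) (p : W[X]) (ha : ∀ i ∈ s, (a i).Monic) :
    nv (∏ i ∈ s, a i) p = ∏ i ∈ s, nv (a i) p := by
  induction s using Finset.induction_on with
  | empty => simp [nv_one]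
  | insert i s hi ih =>
    rw [Finset.prod_insert hi, Finset.prod_insert hi, nv_mul _ _ _ (ha i (Finset.mem_insert_self _ _))
      (monic_prod_of_monic _ _ fun j hj => ha j (Finset.mem_insert_of_mem hj)),
      ih fun j hj => ha j (Finset.mem_insert_of_mem hj)]

theorem nv_const (a : W[X]) : nv a 1 = 1 := by
  rw [nv, map_one, map_one]

/-- If `a` divides `f` and the value on `f` is not zero then the value on `a` is not zero. -/
theorem nv_ne_of_dvd {a f p : W[X]} (ha : a.Monic) (hf : f.Monic) (h : a ∣ f) (h0 : nv f p ≠ 0) :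
    nv a p ≠ 0 := by
  obtain ⟨b, rfl⟩ := h
  have hb : b.Monic := ha.of_mul_monic_left hf
  rw [nv_mul _ _ _ ha hb] at h0
  exact left_ne_zero_of_mul h0

end nv

section zp

variable {k W : Type} [Field k] [Field W]

theorem zp_natDegree (φ : k[X] →+* W) {m : ℕ} (z : Fin (m + 1) → k[X]) :
    (zp φ z).natDegree ≤ m := by
  unfold zp
  refine natDegree_sum_le_of_forall_le _ _ fun i _ => ?_
  refine (natDegree_C_mul_X_pow_le _ _).trans ?_
  omega

/-- The polynomial over `k[X]` with the coefficients `z`. -/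
noncomputable def zq {m : ℕ} (z : Fin m → k[X]) : k[X][X] := ∑ i, C (z i) * X ^ (i : ℕ)

theorem zq_natDegree {m : ℕ} (z : Fin (m + 1) → k[X]) : (zq z).natDegree ≤ m := by
  unfold zq
  refine natDegree_sum_le_of_forall_le _ _ fun i _ => ?_
  refine (natDegree_C_mul_X_pow_le _ _).trans ?_
  omega

theorem zq_coeff {m : ℕ} (z : Fin m → k[X]) (j : ℕ) :
    (zq z).coeff j = if h : j < m then z ⟨j, h⟩ else 0 := by
  unfold zq
  rw [finset_sum_coeff]
  simp only [coeff_C_mul, coeff_X_pow]
  split_ifs with h
  · rw [Finset.sum_eq_single ⟨j, h⟩]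
    · simp
    · intro i _ hi
      rw [if_neg, mul_zero]
      rintro rfl
      exact hi rfl
    · intro hn
      exact absurd (Finset.mem_univ _) hn
  · refine Finset.sum_eq_zero fun i _ => ?_
    rw [if_neg, mul_zero]
    intro hj
    exact h (hj ▸ i.2)

theorem zq_map (φ : k[X] →+* W) {m : ℕ} (z : Fin m → k[X]) : (zq z).map φ = zp φ z := by
  unfold zq zp
  rw [Polynomial.map_sum]
  refine Finset.sum_congr rfl fun i _ => ?_
  rw [Polynomial.map_mul, map_C, Polynomial.map_pow, map_X]

/-- The norm polynomial. -/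
noncomputable def nrm {g : ℕ} (f : k[X][X]) (z : Fin (2 * g + 1) → k[X]) : k[X] :=
  resultant f (zq z) (2 * g + 1) (2 * g)

theorem nrm_map {g : ℕ} {f : k[X][X]} (hf : f.Monic) (hd : f.natDegree = 2 * g + 1)
    (φ : k[X] →+* W) (z : Fin (2 * g + 1) → k[X]) :
    φ (nrm f z) = nv (f.map φ) (zp φ z) := by
  rw [nrm, ← resultant_map_map, zq_map, nv_eq _ _ (hf.map φ) (2 * g) (zp_natDegree φ z),
    hf.natDegree_map, hd]

theorem natDegree_det_le {n : ℕ} (M : Matrix (Fin n) (Fin n) k[X]) (B : ℕ)
    (h : ∀ i j, (M i j).natDegree ≤ B) : M.det.natDegree ≤ n * B := by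
  rw [Matrix.det_apply]
  refine natDegree_sum_le_of_forall_le _ _ fun σ _ => ?_
  refine (natDegree_smul_le _ _).trans ?_
  refine (natDegree_prod_le _ _).trans ?_
  calc _ ≤ ∑ i : Fin n, B := Finset.sum_le_sum fun i _ => h _ _
    _ = _ := by simp

theorem natDegree_nrm {g : ℕ} (f : k[X][X]) (z : Fin (2 * g + 1) → k[X]) (N B : ℕ)
    (hN : ∀ i, (z i).natDegree ≤ N) (hB : ∀ i, (f.coeff i).natDegree ≤ B) :
    (nrm f z).natDegree ≤ (4 * g + 1) * (N + B) := by
  have h := natDegree_det_le (sylvester f (zq z) (2 * g + 1) (2 * g)) (N + B) ?_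
  · refine h.trans (le_of_eq ?_)
    ring
  · intro i j
    rw [sylvester, Matrix.of_apply]
    induction j using Fin.addCases with
    | left j =>
      rw [Fin.addCases_left]
      split_ifs
      · rw [zq_coeff]
        split_ifs
        · exact (hN _).trans (by omega)
        · simp
      · simp
    | right j =>
      rw [Fin.addCases_right]
      split_ifs
      · exact (hB _).trans (by omega)
      · simp

/-- A bound for the degrees of the coefficients. -/
noncomputable def cdg (f : k[X][X]) : ℕ := f.support.sup fun i => (f.coeff i).natDegree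

theorem le_cdg (f : k[X][X]) (i : ℕ) : (f.coeff i).natDegree ≤ cdg f := by
  by_cases h : i ∈ f.support
  · exact Finset.le_sup (f := fun i => (f.coeff i).natDegree) h
  · rw [notMem_support_iff.1 h]
    simp

end zp

section norm

variable {k K L : Type} [Field k] [Field K] [Algebra k[X] K] [IsFractionRing k[X] K]
  [Field L] [Algebra K L] [Algebra k[X] L] [IsScalarTower k[X] K L] {g : ℕ} {f : k[X][X]} {θ : L}

/-- The norm of `α` is the norm polynomial. -/
theorem norm_crd (h : IsGen g K f θ) {α : L} {z : Fin (2 * g + 1) → k[X]} (hz : Crd g θ z α) :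
    Algebra.norm K α = algebraMap k[X] K (nrm f z) := by
  rw [nrm_map h.mon h.deg (algebraMap k[X] K) z, nv]
  have hfd : FiniteDimensional K L := Module.finite_of_finrank_pos (by rw [h.rank]; omega)
  have hroot : aeval θ (f.map (algebraMap k[X] K)) = 0 := by
    rw [aeval_map_algebraMap]
    exact h.root
  have hmon : (f.map (algebraMap k[X] K)).Monic := h.mon.map _
  have hdeg : (f.map (algebraMap k[X] K)).natDegree = 2 * g + 1 := by
    rw [h.mon.natDegree_map, h.deg]
  -- the map `K[X] / f → L` is bijective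
  let ψ : AdjoinRoot (f.map (algebraMap k[X] K)) →ₐ[K] L :=
    AdjoinRoot.liftAlgHom (f.map (algebraMap k[X] K)) (Algebra.ofId K L) θ hroot
  have hψ : ∀ p : K[X], ψ (AdjoinRoot.mk _ p) = aeval θ p := by
    intro p
    simp [ψ, aeval_def, Algebra.ofId_apply, AdjoinRoot.liftAlgHom]
  have hsurj : Function.Surjective ψ := by
    intro x
    obtain ⟨c, hc⟩ := h.gen x
    refine ⟨AdjoinRoot.mk _ (∑ i, C (c i) * X ^ (i : ℕ)), ?_⟩
    rw [hψ, hc, map_sum]
    refine Finset.sum_congr rfl fun i _ => ?_
    rw [map_mul, map_pow, aeval_X, aeval_C]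
  have hpb : Module.finrank K (AdjoinRoot (f.map (algebraMap k[X] K))) = 2 * g + 1 := by
    rw [(AdjoinRoot.powerBasis' hmon).finrank, AdjoinRoot.powerBasis'_dim, hdeg]
  have hfd' : FiniteDimensional K (AdjoinRoot (f.map (algebraMap k[X] K))) :=
    Module.finite_of_finrank_pos (by rw [hpb]; omega)
  have hbij : Function.Bijective ψ := by
    refine ⟨?_, hsurj⟩
    have := (LinearMap.injective_iff_surjective_of_finrank_eq_finrank
      (f := ψ.toLinearMap) (hpb.trans h.rank.symm)).2 hsurj
    exact this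
  have e : α = AlgEquiv.ofBijective ψ hbij
      (AdjoinRoot.mk _ (zp (algebraMap k[X] K) z)) := by
    rw [AlgEquiv.coe_ofBijective, hψ, hz, zp, map_sum]
    refine Finset.sum_congr rfl fun i _ => ?_
    rw [map_mul, map_pow, aeval_X, aeval_C, ← IsScalarTower.algebraMap_apply]
  rw [e, Algebra.norm_eq_of_algEquiv]

end norm

end Run7.h784.TG
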