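import Pool.Agent.Run7.h784.TG.Nv
import Pool.Agent.Run7.h784.TS.One

/-!
# ONE: the average of the order of the Selmer group after one step (project TG, helper784)
-/

set_option autoImplicit false
set_option linter.all false

open Polynomial IsDedekindDomain
open scoped Classical

namespace Run7.h784.TG

open Pool.Agent.N874.PP (Ov Ev Sq1 S_CLS)
open Pool.Agent.N352.PJ (IsGen Crd LocIm SelZero Fam GoodR Ht dsc)
open Run7.h875.TS (chi cd IsPC GSq irrD dg NRs uT sqf prD sqL sz Tr S_DOUBLE S_TRS)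
open Run7.h784.TS (chi_zero chi_ne chi_cases chi_mul chi_le le_chi relIndex_eq_card card_zeros
  card_minpoly)

/-! ### Representatives -/

section reps

variable {k K L O : Type} [Field k] [Finite k] [Field K] [Algebra k[X] K]
  [IsFractionRing k[X] K]
  [Field L] [Algebra K L] [Algebra k[X] L] [IsScalarTower k[X] K L] [CommRing O]
  [IsDedekindDomain O] [Algebra O L] [IsFractionRing O L] [Algebra k[X] O]
  [IsScalarTower k[X] O L] [IsIntegralClosure O k[X] L] {g N₀ : ℕ} {ρ : k[X]} {f : k[X][X]} {θ : L}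

/-- The coordinates of `1`. -/
noncomputable def z1 (k : Type) [Field k] (g : ℕ) : Fin (2 * g + 1) → k[X] := fun i => if (i : ℕ) = 0 then 1 else 0

theorem crd_z1 : Crd g θ (z1 k g) (1 : L) := by
  unfold Crd z1
  rw [Finset.sum_eq_single ⟨0, by omega⟩]
  · simp
  · intro i _ hi
    rw [if_neg, map_zero, zero_mul]
    intro h
    exact hi (Fin.ext h)
  · intro h
    exact absurd (Finset.mem_univ _) h

theorem zp_z1 {W : Type} [Field W] (φ : k[X] →+* W) : zp φ (z1 k g) = 1 := by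
  unfold zp z1
  rw [Finset.sum_eq_single ⟨0, by omega⟩]
  · simp
  · intro i _ hi
    rw [if_neg, map_zero, C_0, zero_mul]
    intro h
    exact hi (Fin.ext h)
  · intro h
    exact absurd (Finset.mem_univ _) h

/-- Small representatives of the classes of the Selmer group. -/
structure Reps (g : ℕ) (O : Type) [CommRing O] [IsDedekindDomain O] [Algebra O L]
    [IsFractionRing O L] [Algebra k[X] O] (K : Type) [Field K] [Algebra K L] (f : k[X][X]) (θ : L)
    (S : Finset k[X]) (u : k[X] → k[X]) (N : ℕ)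
    {ι : Type} (r : ι → Lˣ) (z : ι → Fin (2 * g + 1) → k[X]) (i₀ : ι) : Prop where
  sel : ∀ i, SelC O K f θ S u (r i : L)
  mem : ∀ i, r i ∈ SelG O K f θ S u
  inj : ∀ i j, (r i)⁻¹ * r j ∈ sqL L → i = j
  surj : ∀ x ∈ SelG O K f θ S u, ∃ i, (r i)⁻¹ * x ∈ sqL L
  crd : ∀ i, Crd g θ (z i) (r i : L)
  deg : ∀ i l, (z i l).natDegree ≤ N
  one : ∀ i, IsSquare (r i : L) → i = i₀
  z0 : z i₀ = z1 k g

theorem exists_reps (hGRP : P_GRP) (hF : Fm g N₀ ρ f)
    (h : IsGen g K f θ) {S : Finset k[X]} {u : k[X] → k[X]} (hG : GoodT g f S u) {N : ℕ}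
    (hN : ∀ α : L, SelC O K f θ S u α → ∃ (r : L) (z : Fin (2 * g + 1) → k[X]), r ≠ 0 ∧
        Crd g θ z (α * r ^ 2) ∧ ∀ i, (z i).natDegree ≤ N) (hs : sz (SelG O K f θ S u) ≠ 0) :
    ∃ (ι : Type) (_ : Fintype ι) (r : ι → Lˣ) (z : ι → Fin (2 * g + 1) → k[X]) (i₀ : ι),
      Reps g O K f θ S u N r z i₀ := by
  obtain ⟨-, hG2⟩ := hGRP k K L O g N₀ ρ f θ hF h
  obtain ⟨hg1, hg2⟩ := hG2 S u hG
  have hfin : Finite (SelG O K f θ S u ⧸ (sqL L).subgroupOf (SelG O K f θ S u)) :=
    Nat.finite_of_card_ne_zero hs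
  have key : ∀ q : SelG O K f θ S u ⧸ (sqL L).subgroupOf (SelG O K f θ S u),
      ∃ (x : Lˣ) (z : Fin (2 * g + 1) → k[X]), ∃ hx : x ∈ SelG O K f θ S u,
        (QuotientGroup.mk (⟨x, hx⟩ : SelG O K f θ S u) :
          SelG O K f θ S u ⧸ (sqL L).subgroupOf (SelG O K f θ S u)) = q ∧
        Crd g θ z (x : L) ∧ (∀ l, (z l).natDegree ≤ N) ∧
        (q = QuotientGroup.mk 1 → z = z1 k g) := by
    intro q
    by_cases hq : q = QuotientGroup.mk 1
    · refine ⟨1, z1 k g, Subgroup.one_mem _, hq.symm ▸ rfl, crd_z1, ?_, fun _ => rfl⟩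
      intro l
      unfold z1
      split_ifs <;> simp
    · obtain ⟨⟨x, hx⟩, rfl⟩ := QuotientGroup.mk_surjective q
      obtain ⟨r, z, hr, hz, hd⟩ := hN _ ((hg1 x).1 hx)
      have hsq : (Units.mk0 r hr) ^ 2 ∈ sqL L := ⟨Units.mk0 r hr, rfl⟩
      refine ⟨x * (Units.mk0 r hr) ^ 2, z, Subgroup.mul_mem _ hx (hg2 hsq), ?_, ?_, hd,
        fun h0 => absurd h0 hq⟩
      · rw [QuotientGroup.eq, Subgroup.mem_subgroupOf]
        have : (x * (Units.mk0 r hr) ^ 2)⁻¹ * x = ((Units.mk0 r hr) ^ 2)⁻¹ := by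
          rw [mul_inv_rev, mul_assoc, inv_mul_cancel, mul_one]
        change (x * (Units.mk0 r hr) ^ 2)⁻¹ * x ∈ sqL L
        rw [this]
        exact Subgroup.inv_mem _ hsq
      · simpa using hz
  choose r z hr hq hc hd h1 using key
  refine ⟨_, Fintype.ofFinite _, r, z, QuotientGroup.mk 1, ?_⟩
  refine ⟨fun i => (hg1 _).1 (hr i), hr, ?_, ?_, hc, hd, ?_, h1 _ rfl⟩
  · intro i j hij
    rw [← hq i, ← hq j, QuotientGroup.eq, Subgroup.mem_subgroupOf]
    exact hij
  · intro x hx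
    refine ⟨QuotientGroup.mk (⟨x, hx⟩ : SelG O K f θ S u), ?_⟩
    have := hq (QuotientGroup.mk (⟨x, hx⟩ : SelG O K f θ S u))
    rw [QuotientGroup.eq, Subgroup.mem_subgroupOf] at this
    exact this
  · rintro i ⟨y, hy⟩
    have hy0 : y ≠ 0 := by
      rintro rfl
      rw [mul_zero] at hy
      exact (r i).ne_zero hy
    rw [← hq i, QuotientGroup.eq, Subgroup.mem_subgroupOf]
    change (r i)⁻¹ * 1 ∈ sqL L
    rw [mul_one]
    apply Subgroup.inv_mem
    refine ⟨Units.mk0 y hy0, ?_⟩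
    ext
    rw [powMonoidHom_apply, Units.val_pow_eq_pow_val, Units.val_mk0, hy, pow_two]

variable {S : Finset k[X]} {u : k[X] → k[X]} {N : ℕ} {ι : Type} [Fintype ι]
  {r : ι → Lˣ} {z : ι → Fin (2 * g + 1) → k[X]} {i₀ : ι}

theorem Reps.card (hr : Reps g O K f θ S u N r z i₀) :
    sz (SelG O K f θ S u) = Fintype.card ι := by
  rw [← Nat.card_eq_fintype_card]
  exact relIndex_eq_card _ _ r hr.mem hr.inj hr.surj

theorem Reps.card_inf (hr : Reps g O K f θ S u N r z i₀) (T : Subgroup Lˣ) (hT : sqL L ≤ T) :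
    (sz (SelG O K f θ S u ⊓ T) : ℝ) = ∑ i : ι, if r i ∈ T then 1 else 0 := by
  have h1 : sz (SelG O K f θ S u ⊓ T) = Nat.card {i : ι // r i ∈ T} := by
    refine relIndex_eq_card _ _ (fun i : {i : ι // r i ∈ T} => r i.1) ?_ ?_ ?_
    · intro i
      exact ⟨hr.mem _, i.2⟩
    · intro i j hij
      exact Subtype.ext (hr.inj _ _ hij)
    · intro x hx
      obtain ⟨i, hi⟩ := hr.surj x hx.1
      refine ⟨⟨i, ?_⟩, hi⟩
      have h2 := hT hi
      have h3 : r i = x * ((r i)⁻¹ * x)⁻¹ := by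
        rw [mul_inv_rev, inv_inv]
        rw [← mul_assoc, mul_inv_cancel, one_mul]
      rw [h3]
      exact Subgroup.mul_mem _ hx.2 (Subgroup.inv_mem _ h2)
  rw [h1, Nat.card_eq_fintype_card, Fintype.card_subtype, Finset.sum_boole]

end reps

/-! ### One place -/

section place

variable {k K L O : Type} [Field k] [Finite k] [Field K] [Algebra k[X] K]
  [IsFractionRing k[X] K]
  [Field L] [Algebra K L] [Algebra k[X] L] [IsScalarTower k[X] K L] [CommRing O]
  [IsDedekindDomain O] [Algebra O L] [IsFractionRing O L] [Algebra k[X] O]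
  [IsScalarTower k[X] O L] [IsIntegralClosure O k[X] L] {g N₀ : ℕ} {ρ : k[X]} {f : k[X][X]} {θ : L}

variable {S : Finset k[X]} {u : k[X] → k[X]} {N : ℕ} {ι : Type} [Fintype ι]
  {r : ι → Lˣ} {z : ι → Fin (2 * g + 1) → k[X]} {i₀ : ι}

/-- The sum of the characters over all divisors of even degree. -/
noncomputable def CC {F : Type} [Field F] [Fintype F] [Algebra k F] (f : k[X][X])
    (z : Fin (2 * g + 1) → k[X]) (t : F) : ℝ :=
  ∑ᶠ a ∈ evd f t, chi (nv a (zp (evt (k := k) t) z))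

/-- The sum of the characters over the divisors of positive even degree. -/
noncomputable def DD {F : Type} [Field F] [Fintype F] [Algebra k F] (f : k[X][X])
    (z : Fin (2 * g + 1) → k[X]) (t : F) : ℝ :=
  ∑ᶠ a ∈ evd f t \ {1}, chi (nv a (zp (evt (k := k) t) z))

theorem chi_one {F : Type} [Field F] [Fintype F] : chi (1 : F) = 1 := by simp [chi]

theorem one_mem_evd {F : Type} [Field F] [Fintype F] [Algebra k F] (f : k[X][X]) (t : F) :
    (1 : F[X]) ∈ evd f t := ⟨monic_one, one_dvd _, by simp⟩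

theorem evd_finite {F : Type} [Field F] [Fintype F] [Algebra k F] {f : k[X][X]} (hf : f.Monic)
    (t : F) : (evd f t).Finite := by
  have h1 : f.map (evt (k := k) t) ≠ 0 := (hf.map _).ne_zero
  have h2 : (evd f t) ⊆ {a : F[X] | a.Monic ∧ a ∣ f.map (evt (k := k) t)} :=
    fun a ha => ⟨ha.1, ha.2.1⟩
  refine Set.Finite.subset ?_ h2
  have h3 : {a : F[X] | a.natDegree ≤ (f.map (evt (k := k) t)).natDegree}.Finite := by
    refine Set.Finite.subset (s := (fun c : Fin ((f.map (evt (k := k) t)).natDegree + 1) → F =>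
      ∑ i : Fin _, C (c i) * X ^ (i : ℕ)) '' Set.univ) (Set.finite_univ.image _) ?_
    intro a ha
    refine ⟨fun i => a.coeff i, trivial, ?_⟩
    simp only
    rw [Finset.sum_range (f := fun i => C (a.coeff i) * X ^ i) |>.symm]
    exact (a.as_sum_range_C_mul_X_pow' (Nat.lt_succ_of_le ha)).symm
  exact h3.subset fun a ha => natDegree_le_of_dvd ha.2 h1

theorem CC_eq {F : Type} [Field F] [Fintype F] [Algebra k F] {f : k[X][X]} (hf : f.Monic)
    (z : Fin (2 * g + 1) → k[X]) (t : F) : CC f z t = 1 + DD f z t := by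
  unfold CC DD
  have h1 := evd_finite hf t
  have h2 : evd f t = {1} ∪ (evd f t \ {1}) := by
    rw [Set.union_diff_cancel]
    simpa using one_mem_evd f t
  conv_lhs => rw [h2]
  rw [finsum_mem_union Set.disjoint_sdiff_right (Set.finite_singleton _) (h1.subset Set.diff_subset),
    finsum_mem_singleton, nv_one, chi_one]

/-- The number of zeros. -/
noncomputable def ZZ {F : Type} [Field F] [Fintype F] [Algebra k F] (f : k[X][X])
    (z : ι → Fin (2 * g + 1) → k[X]) (t : F) : ℝ :=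
  ∑ i : ι, if nv (f.map (evt (k := k) t)) (zp (evt (k := k) t) (z i)) = 0 then 1 else 0

/-- The sum of all the characters. -/
noncomputable def XX {F : Type} [Field F] [Fintype F] [Algebra k F] (f : k[X][X])
    (z : ι → Fin (2 * g + 1) → k[X]) (t : F) : ℝ := ∑ i : ι, DD f (z i) t

theorem ZZ_nonneg {F : Type} [Field F] [Fintype F] [Algebra k F] (f : k[X][X])
    (z : ι → Fin (2 * g + 1) → k[X]) (t : F) : 0 ≤ ZZ f z t := by
  unfold ZZ
  apply Finset.sum_nonneg
  intro i _
  split_ifs <;> norm_num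

/-- The arithmetic of one step. -/
theorem arith {s h s' q2 : ℝ} (hs : 0 < s) (hh0 : 0 ≤ h) (hq : 1 ≤ q2)
    (h1 : s ≤ q2 * h) (h2 : s' * s ≤ q2 * h ^ 2) (h3 : h ≤ s) :
    s' ≤ q2 * h ∧ (2 ≤ q2 → (h = s ∨ 2 * h ≤ s) → s' ≤ 3 / 2 * (q2 * h) - s) := by
  constructor
  · have : s' * s ≤ q2 * h * s := by nlinarith [mul_nonneg (by linarith : (0:ℝ) ≤ q2) hh0]
    exact le_of_mul_le_mul_right this hs
  · intro hq2 h4
    rcases h4 with h4 | h4
    · subst h4
      have : s' * h ≤ (q2 * h) * h := by nlinarith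
      have h5 := le_of_mul_le_mul_right this hs
      nlinarith
    · have h6 : s' * s ≤ (3 / 2 * (q2 * h) - s) * s := by nlinarith [mul_nonneg (by linarith : (0:ℝ) ≤ q2) hh0]
      exact le_of_mul_le_mul_right h6 hs

theorem inf_index (G T : Subgroup Lˣ) (h1 : sqL L ≤ G) (h2 : sqL L ≤ T) (hs : sz G ≠ 0) :
    sz (G ⊓ T) ≤ sz G ∧ (sz (G ⊓ T) = sz G ∨ 2 * sz (G ⊓ T) ≤ sz G) := by
  have h3 : sz G = sz (G ⊓ T) * (G ⊓ T).relIndex G := by
    unfold sz
    exact (Subgroup.relIndex_mul_relIndex _ _ _ (le_inf h1 h2) inf_le_left).symm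
  obtain ⟨n, hn⟩ : ∃ n, n = (G ⊓ T).relIndex G := ⟨_, rfl⟩
  rw [← hn] at h3
  have hn0 : n ≠ 0 := by
    rintro rfl
    rw [mul_zero] at h3
    exact hs h3
  rw [h3]
  constructor
  · exact Nat.le_mul_of_pos_right _ (Nat.pos_of_ne_zero hn0)
  · rcases Nat.eq_or_lt_of_le (Nat.one_le_iff_ne_zero.2 hn0) with h4 | h4
    · left
      rw [← h4, mul_one]
    · right
      rw [mul_comm]
      exact Nat.mul_le_mul_left _ h4

theorem place (hSTK : P_STK) (hDIC : P_DIC) (hSTEP : P_STEP) (hGRP : P_GRP) (hF : Fm g N₀ ρ f)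
    (h : IsGen g K f θ)
    (hG : GoodT g f S u) (hr : Reps g O K f θ S u N r z i₀) (hs : sz (SelG O K f θ S u) ≠ 0)
    {F : Type} [Field F] [Fintype F] [Algebra k F] (t : F)
    (ht : (minpoly k t).natDegree = Module.finrank k F) (hS : minpoly k t ∉ S)
    (hd : ¬ minpoly k t ∣ dsc g f) {w : k[X]} (hw : ¬ minpoly k t ∣ w) :
    (sz (SelG O K f θ (insert (minpoly k t) S) (Function.update u (minpoly k t) w)) : ℝ) ≤
      sz (SelG O K f θ S u) * (3 + chi (aeval t (C ((-1) ^ g) * dsc g f))) / 4 +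
        XX f z t * (5 - chi (aeval t (C ((-1) ^ g) * dsc g f))) / 4 +
        3 / 2 * (2 ^ (2 * g + 1) * ZZ f z t) := by
  have hint : IsIntegral k t := Algebra.IsIntegral.isIntegral t
  have hQm : (minpoly k t).Monic := minpoly.monic hint
  have hQi : Irreducible (minpoly k t) := minpoly.irreducible hint
  have hd' : aeval t (dsc g f) ≠ 0 := fun h0 => hd (minpoly.dvd k t h0)
  obtain ⟨hnr, T, hT, hsT, -, -, hT1, hT2⟩ :=
    hSTEP k K L O g N₀ ρ f θ hF h S u hG hs _ hQm hQi hS hd w hw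
  obtain ⟨hD0, hDf, hD1, hD2⟩ := hDIC k K L O g N₀ ρ f θ hF h F t ht hd
  obtain ⟨hK1, hK2, hK3⟩ := hSTK k F g N₀ ρ f t hF hd'
  obtain ⟨-, hg2⟩ := (hGRP k K L O g N₀ ρ f θ hF h).2 S u hG
  rw [hD0] at hT1 hT2
  obtain ⟨R, hR⟩ : ∃ R, nf f t = R + 1 := ⟨nf f t - 1, by omega⟩
  have hRg : R ≤ 2 * g := by
    have h1 : nf f t ≤ 2 * g + 1 := by
      have hm : (f.map (evt (k := k) t)).Monic := h.mon.map _
      have hdg : (f.map (evt (k := k) t)).natDegree = 2 * g + 1 := by
        rw [h.mon.natDegree_map, h.deg]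
      rw [← hdg]
      unfold nf
      have h2 := UniqueFactorizationMonoid.prod_normalizedFactors_eq hm.ne_zero
      have h3 : ((UniqueFactorizationMonoid.normalizedFactors (f.map (evt (k := k) t))).map
          natDegree).sum = (f.map (evt (k := k) t)).natDegree := by
        rw [← natDegree_multiset_prod _ (UniqueFactorizationMonoid.zero_notMem_normalizedFactors _),
          h2]
        exact natDegree_eq_of_degree_eq degree_normalize
      rw [← h3]
      calc _ = ((UniqueFactorizationMonoid.normalizedFactors (f.map (evt (k := k) t))).map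
            fun _ => 1).sum := by simp
        _ ≤ _ := Multiset.sum_map_le_sum_map _ _ fun p hp =>
            (UniqueFactorizationMonoid.irreducible_of_normalized_factor p hp).natDegree_pos
    omega
  rw [hR, Nat.add_sub_cancel] at hT1 hT2 hD1
  set Q := minpoly k t with hQ
  set G := SelG O K f θ S u with hGd
  set G' := SelG O K f θ (insert Q S) (Function.update u Q w) with hGd'
  obtain ⟨i1, i2⟩ := inf_index G T hg2 hsT hs
  have hcard : (sz G : ℝ) = ∑ i : ι, (1 : ℝ) := by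
    rw [hr.card]
    simp
  have hinf := hr.card_inf T hsT
  -- the comparison
  have hCC : ∀ i, (2 : ℝ) ^ R * (if r i ∈ T then 1 else 0) ≤ 1 + DD f (z i) t +
      2 ^ (2 * g + 1) * (if nv (f.map (evt (k := k) t)) (zp (evt (k := k) t) (z i)) = 0 then 1
        else 0) := by
    intro i
    rw [← CC_eq h.mon]
    by_cases hi : nv (f.map (evt (k := k) t)) (zp (evt (k := k) t) (z i)) = 0
    · rw [if_pos hi]
      have h1 : -(2 : ℝ) ^ R ≤ CC f (z i) t := by
        unfold CC
        rw [finsum_mem_eq_finite_toFinset_sum _ hDf]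
        calc -(2 : ℝ) ^ R = ∑ a ∈ hDf.toFinset, (-1 : ℝ) := by
              rw [Finset.sum_const, ← Set.ncard_eq_toFinset_card _ hDf, hD1]
              simp
          _ ≤ _ := Finset.sum_le_sum fun a _ => le_chi _
      have h2 : (2 : ℝ) ^ R ≤ 2 ^ (2 * g) := pow_le_pow_right₀ (by norm_num) hRg
      have h3 : (2 : ℝ) ^ (2 * g + 1) = 2 * 2 ^ (2 * g) := by rw [pow_succ]; ring
      have h4 : (0 : ℝ) ≤ 2 ^ R := by positivity
      rw [h3]
      split_ifs <;> linarith
    · rw [if_neg hi, mul_zero, add_zero]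
      obtain ⟨-, j1, j2⟩ := hD2 (r i : L) (z i) (r i).ne_zero (hr.sel i).nsq (hr.crd i) hi
      by_cases hri : r i ∈ T
      · rw [if_pos hri, mul_one]
        have h5 := j1 ((hT _).1 hri)
        have h6 : CC f (z i) t = ∑ᶠ a ∈ evd f t, (1 : ℝ) := by
          unfold CC
          exact finsum_mem_congr rfl fun a ha => h5 a ha
        rw [h6, finsum_mem_eq_finite_toFinset_sum _ hDf, Finset.sum_const,
          ← Set.ncard_eq_toFinset_card _ hDf, hD1]
        simp
      · rw [if_neg hri, mul_zero]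
        have h5 := j2 (fun h0 => hri ((hT _).2 h0))
        exact h5.ge
  have hsum : (2 : ℝ) ^ R * sz (G ⊓ T) ≤ sz G + XX f z t + 2 ^ (2 * g + 1) * ZZ f z t := by
    rw [hinf, hcard]
    unfold XX ZZ
    rw [Finset.mul_sum, Finset.mul_sum, ← Finset.sum_add_distrib, ← Finset.sum_add_distrib]
    exact Finset.sum_le_sum fun i _ => hCC i
  -- real arithmetic
  have hs0 : (0 : ℝ) < sz G := by exact_mod_cast Nat.pos_of_ne_zero hs
  obtain ⟨b1, b2⟩ := arith (s := sz G) (h := sz (G ⊓ T)) (s' := sz G') (q2 := 2 ^ R) hs0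
    (by positivity) (one_le_pow₀ (by norm_num)) (by exact_mod_cast hT1) (by exact_mod_cast hT2)
    (by exact_mod_cast i1)
  have hY : (sz G : ℝ) ≤ 2 ^ R * sz (G ⊓ T) := by exact_mod_cast hT1
  have hZ := ZZ_nonneg f z t
  have hZ' : (0 : ℝ) ≤ 2 ^ (2 * g + 1) * ZZ f z t := by positivity
  rw [hK3, hR, show R + 1 + 1 = R + 2 by ring, pow_add]
  rcases Nat.even_or_odd R with hp | hp
  · rw [hp.neg_one_pow]
    norm_num
    linarith
  · rw [hp.neg_one_pow]
    have h2R : (2 : ℝ) ≤ 2 ^ R := by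
      calc (2 : ℝ) = 2 ^ 1 := by norm_num
        _ ≤ _ := pow_le_pow_right₀ (by norm_num) hp.pos
    have b3 := b2 h2R (by
      rcases i2 with i2 | i2
      · left; exact_mod_cast i2
      · right; exact_mod_cast i2)
    norm_num
    linarith

end place

end Run7.h784.TG
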