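import Pool.Agent.Run7.h784.TG.One
import Pool.Agent.Run7.h973.TG.Dv

/-!
# ONE, second part: the sums (project TG, helper784)
-/

set_option autoImplicit false
set_option linter.all false

open Polynomial IsDedekindDomain
open scoped Classical

namespace Run7.h784.TG

open Pool.Agent.N874.PP (Ov Ev Sq1 S_CLS)
open Pool.Agent.N352.PJ (IsGen Crd LocIm SelZero Fam GoodR Ht dsc)
open Run7.h875.TS (chi cd IsPC GSq irrD dg NRs uT sqf prD sqL sz Tr S_DOUBLE S_TRS)
open Run7.h784.TS (chi_zero chi_ne chi_cases chi_mul chi_le le_chi relIndex_eq_card card_zeros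
  card_minpoly)
open Run7.h973.TG (mdv mdv_fin card_nf_le facR_bound)

/-- The degrees `2 j` and `n - 2 j`. -/
def cj (g j : ℕ) : Fin 2 → ℕ := ![2 * j, 2 * g + 1 - 2 * j]

theorem cj_pos {g j : ℕ} (hj : j ∈ Finset.Icc 1 g) (i : Fin 2) : 1 ≤ cj g j i := by
  rw [Finset.mem_Icc] at hj
  fin_cases i
  · simp [cj]; omega
  · simp [cj]; omega

theorem cj_sum {g j : ℕ} (hj : j ∈ Finset.Icc 1 g) : ∑ i, cj g j i = 2 * g + 1 := by
  rw [Finset.mem_Icc] at hj
  rw [Fin.sum_univ_two]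
  simp [cj]
  omega

section dd

variable {k : Type} [Field k] [Finite k] {g : ℕ} {F : Type} [Field F] [Fintype F] [Algebra k F] {f : k[X][X]}

theorem DD_eq (hf : f.Monic) (hd : f.natDegree = 2 * g + 1) (z : Fin (2 * g + 1) → k[X]) (t : F) :
    DD f z t = ∑ j ∈ Finset.Icc 1 g, ∑ᶠ a ∈ FacR (evt (k := k) t) f (cj g j),
      chi (nv (∏ i ∈ ({0} : Finset (Fin 2)), a i) (zp (evt (k := k) t) z)) := by
  have hm : (f.map (evt (k := k) t)).Monic := hf.map _
  have hdg : (f.map (evt (k := k) t)).natDegree = 2 * g + 1 := by rw [hf.natDegree_map, hd]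
  unfold DD
  have h1 : evd f t \ {1} = ⋃ j ∈ (↑(Finset.Icc 1 g) : Set ℕ),
      {a : F[X] | a ∈ evd f t ∧ a.natDegree = 2 * j} := by
    ext a
    simp only [Set.mem_diff, Set.mem_singleton_iff, Set.mem_iUnion, Set.mem_setOf_eq,
      Finset.coe_Icc, Set.mem_Icc]
    constructor
    · rintro ⟨ha, ha1⟩
      obtain ⟨j, hj⟩ := ha.2.2
      have h2 : a.natDegree ≤ 2 * g + 1 := hdg ▸ natDegree_le_of_dvd ha.2.1 hm.ne_zero
      have h3 : a.natDegree ≠ 0 := fun h0 => ha1 (eq_one_of_monic_natDegree_zero ha.1 h0)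
      exact ⟨j, by omega, ha, by omega⟩
    · rintro ⟨j, hj, ha, haj⟩
      refine ⟨ha, ?_⟩
      rintro rfl
      rw [natDegree_one] at haj
      omega
  have hfin := evd_finite (k := k) hf t
  rw [h1, finsum_mem_biUnion ?_ (Finset.finite_toSet _) ?_, finsum_mem_coe_finset]
  · refine Finset.sum_congr rfl fun j hj => ?_
    symm
    refine finsum_mem_eq_of_bijOn (fun a : Fin 2 → F[X] => a 0) ⟨?_, ?_, ?_⟩ ?_
    · rintro a ⟨ha1, ha2⟩
      rw [Fin.prod_univ_two] at ha2
      have h2 : (a 0).natDegree = 2 * j := (ha1 0).2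
      exact ⟨⟨(ha1 0).1, ⟨_, ha2.symm⟩, h2 ▸ even_two_mul j⟩, h2⟩
    · rintro a ⟨ha1, ha2⟩ b ⟨hb1, hb2⟩ hab
      simp only at hab
      rw [Fin.prod_univ_two] at ha2 hb2
      have h2 : a 1 = b 1 := by
        have h3 : a 0 * a 1 = a 0 * b 1 := by rw [ha2, hab, hb2]
        exact mul_left_cancel₀ (ha1 0).1.ne_zero h3
      funext i
      fin_cases i
      · exact hab
      · exact h2
    · rintro a ⟨⟨ha1, ⟨b, hb⟩, ha3⟩, ha4⟩
      have hbm : b.Monic := ha1.of_mul_monic_left (hb ▸ hm)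
      refine ⟨![a, b], ⟨?_, ?_⟩, rfl⟩
      · intro i
        have h5 : a.natDegree + b.natDegree = 2 * g + 1 := by
          rw [← ha1.natDegree_mul hbm, ← hb, hdg]
        fin_cases i
        · exact ⟨ha1, ha4⟩
        · refine ⟨hbm, ?_⟩
          simp [cj]
          omega
      · rw [Fin.prod_univ_two]
        exact hb.symm
    · intro a _
      rw [Finset.prod_singleton]
  · intro i _ j _ hij
    refine Set.disjoint_left.2 fun a ha ha' => hij ?_
    have h2 := ha.2
    have h3 := ha'.2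
    omega
  · intro j _
    exact hfin.subset fun a ha => ha.1

theorem abs_fac_le (z : Fin (2 * g + 1) → k[X]) (t : F) (hf : f.Monic) {l : ℕ} (c : Fin l → ℕ)
    (B : Finset (Fin l)) :
    |∑ᶠ a ∈ FacR (evt (k := k) t) f c, chi (nv (∏ i ∈ B, a i) (zp (evt (k := k) t) z))| ≤
      ((FacR (evt (k := k) t) f c).ncard : ℝ) := by
  have hfin := (facR_bound (evt (k := k) t) f hf c).1
  rw [finsum_mem_eq_finite_toFinset_sum _ hfin, Set.ncard_eq_toFinset_card _ hfin]
  refine (Finset.abs_sum_le_sum_abs _ _).trans ?_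
  calc _ ≤ ∑ a ∈ hfin.toFinset, (1 : ℝ) := Finset.sum_le_sum fun a _ =>
        abs_le.2 ⟨le_chi _, chi_le _⟩
    _ = _ := by simp

theorem abs_DD_le (hf : f.Monic) (hd : f.natDegree = 2 * g + 1) (z : Fin (2 * g + 1) → k[X])
    (t : F) : |DD f z t| ≤ g * (2 ^ (2 * g + 1)) ^ 2 := by
  rw [DD_eq hf hd]
  refine (Finset.abs_sum_le_sum_abs _ _).trans ?_
  calc _ ≤ ∑ j ∈ Finset.Icc 1 g, ((2 : ℝ) ^ (2 * g + 1)) ^ 2 := by
        refine Finset.sum_le_sum fun j _ => (abs_fac_le z t hf _ _).trans ?_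
        have := (facR_bound (evt (k := k) t) f hf (cj g j)).2
        rw [hd] at this
        exact_mod_cast this
    _ = _ := by simp

theorem DD_z1 (hf : f.Monic) (hd : f.natDegree = 2 * g + 1) (t : F) :
    DD f (z1 k g) t = ∑ j ∈ Finset.Icc 1 g, ((FacR (evt (k := k) t) f (cj g j)).ncard : ℝ) := by
  rw [DD_eq hf hd]
  refine Finset.sum_congr rfl fun j _ => ?_
  have hfin := (facR_bound (evt (k := k) t) f hf (cj g j)).1
  rw [finsum_mem_eq_finite_toFinset_sum _ hfin, Set.ncard_eq_toFinset_card _ hfin]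
  rw [Finset.sum_congr rfl (g := fun _ => (1 : ℝ))]
  · simp
  · intro a _
    rw [zp_z1, nv_const, chi_one]

end dd

/-! ### The estimates -/

section sums

variable {k K L : Type} [Field k] [Finite k] [Field K] [Algebra k[X] K] [IsFractionRing k[X] K]
  [Field L] [Algebra K L] [Algebra k[X] L] [IsScalarTower k[X] K L] {g N₀ : ℕ} {ρ : k[X]}
  {f : k[X][X]} {θ : L}
  {F : Type} [Field F] [Fintype F] [Algebra k F] {ι : Type} [Fintype ι]

/-- What is needed from `P_W`. -/
structure WU (K L : Type) [Field K] [Algebra k[X] K]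
    [Field L] [Algebra K L] [Algebra k[X] L] (g : ℕ) (f : k[X][X]) (θ : L) (C₂ : ℕ) (F : Type)
    [Field F] [Fintype F] [Algebra k F] : Prop where
  a1 : ∀ j ∈ Finset.Icc 1 g, ∑ t : F, ((FacR (evt (k := k) t) f (cj g j)).ncard : ℝ) ≤
    cd F + C₂ * √(cd F)
  a2 : ∀ j ∈ Finset.Icc 1 g, |∑ t : F, chi (aeval t (dsc g f)) *
    ((FacR (evt (k := k) t) f (cj g j)).ncard : ℝ)| ≤ C₂ * (1 + (dsc g f).natDegree) * √(cd F)
  a0 : |∑ t : F, chi (aeval t (dsc g f))| ≤ C₂ * (1 + (dsc g f).natDegree) * √(cd F)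
  a3 : ∀ j ∈ Finset.Icc 1 g, ∀ (α : L) (z : Fin (2 * g + 1) → k[X]) (N' : ℕ), α ≠ 0 →
    IsSquare (Algebra.norm K α) → ¬ IsSquare α → Crd g θ z α → (∀ i, (z i).natDegree ≤ N') →
    ∀ b : k[X], b ≠ 0 →
      |∑ t : F, chi (aeval t b) * ∑ᶠ a ∈ FacR (evt (k := k) t) f (cj g j),
        chi (nv (∏ i ∈ ({0} : Finset (Fin 2)), a i) (zp (evt (k := k) t) z))| ≤
          C₂ * (1 + N' + b.natDegree) * √(cd F)

theorem fac_one (hf : f.Monic) (hd : f.natDegree = 2 * g + 1) (t : F) :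
    (FacR (evt (k := k) t) f (fun _ : Fin 1 => 2 * g + 1)).ncard = 1 := by
  rw [Set.ncard_eq_one]
  refine ⟨fun _ => f.map (evt (k := k) t), ?_⟩
  ext a
  constructor
  · rintro ⟨ha1, ha2⟩
    rw [Fin.prod_univ_one] at ha2
    rw [Set.mem_singleton_iff]
    funext i
    rw [Subsingleton.elim i 0]
    exact ha2
  · rintro rfl
    refine ⟨fun i => ⟨hf.map _, ?_⟩, ?_⟩
    · rw [hf.natDegree_map, hd]
    · rw [Fin.prod_univ_one]

theorem exists_WU (hW : P_W) (hF : Fm g N₀ ρ f) (hfull : Full f) (h : IsGen g K f θ) :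
    ∃ C₂ : ℕ, ∀ (F : Type) [Field F] [Fintype F] [Algebra k F], WU K L g f θ C₂ F := by
  obtain ⟨C₂, hC⟩ := hW k g N₀ ρ f hF hfull
  refine ⟨C₂, fun F _ _ _ => ⟨?_, ?_, ?_, ?_⟩⟩
  · intro j hj
    have := (hC 2 (cj g j) (cj_pos hj) (cj_sum hj)).1 F
    have := (abs_le.1 this).2
    linarith
  · intro j hj
    refine (hC 2 (cj g j) (cj_pos hj) (cj_sum hj)).2.1 (dsc g f) (Or.inl ⟨rfl, 0, ?_⟩) F
    rw [Finset.mem_Icc] at hj
    simp [cj]
    omega
  · have h1 := hF.g1
    have := (hC 1 (fun _ : Fin 1 => 2 * g + 1) (fun _ => by omega) (by simp)).2.1 (dsc g f)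
      (Or.inl ⟨rfl, 0, by simp; omega⟩) F
    simp only [fac_one h.mon h.deg, Nat.cast_one, mul_one] at this
    exact this
  · intro j hj α z N' h0 h1 h2 h3 h4 b hb
    exact (hC 2 (cj g j) (cj_pos hj) (cj_sum hj)).2.2 {0} (Finset.singleton_nonempty _)
      (by rw [Finset.sum_singleton]; simp [cj]) K L θ h α z N' h0 h1 h2 h3 h4 b hb F

theorem sum_DD (h : IsGen g K f θ) {C₂ : ℕ} (hC : WU K L g f θ C₂ F) {α : L}
    {z : Fin (2 * g + 1) → k[X]} {N : ℕ} (h0 : α ≠ 0) (hsq : IsSquare (Algebra.norm K α))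
    (hns : ¬ IsSquare α) (hc : Crd g θ z α) (hN : ∀ i, (z i).natDegree ≤ N) (b : k[X])
    (hb : b ≠ 0) : |∑ t : F, chi (aeval t b) * DD f z t| ≤
      g * (C₂ * (1 + N + b.natDegree) * √(cd F)) := by
  have e : ∑ t : F, chi (aeval t b) * DD f z t = ∑ j ∈ Finset.Icc 1 g, ∑ t : F,
      chi (aeval t b) * ∑ᶠ a ∈ FacR (evt (k := k) t) f (cj g j),
      chi (nv (∏ i ∈ ({0} : Finset (Fin 2)), a i) (zp (evt (k := k) t) z)) := by
    rw [Finset.sum_comm]
    refine Finset.sum_congr rfl fun t _ => ?_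
    rw [DD_eq h.mon h.deg, Finset.mul_sum]
  rw [e]
  refine (Finset.abs_sum_le_sum_abs _ _).trans ?_
  calc _ ≤ ∑ j ∈ Finset.Icc 1 g, (C₂ * (1 + N + b.natDegree) * √(cd F) : ℝ) :=
        Finset.sum_le_sum fun j hj => hC.a3 j hj α z N h0 hsq hns hc hN b hb
    _ = _ := by simp

theorem sum_XX (h : IsGen g K f θ) {C₂ : ℕ} (hC : WU K L g f θ C₂ F) {r : ι → Lˣ}
    {z : ι → Fin (2 * g + 1) → k[X]} {N : ℕ} {i₀ : ι}
    (hc : ∀ i, Crd g θ (z i) (r i : L)) (hN : ∀ i l, (z i l).natDegree ≤ N)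
    (hsq : ∀ i, IsSquare (Algebra.norm K (r i : L))) (h1 : ∀ i, IsSquare (r i : L) → i = i₀)
    (h2 : z i₀ = z1 k g) :
    ∑ t : F, XX f z t ≤ g * (cd F + C₂ * √(cd F)) +
      Fintype.card ι * (g * (C₂ * (1 + N) * √(cd F))) := by
  unfold XX
  rw [Finset.sum_comm]
  have hpos : 0 ≤ (g * (C₂ * (1 + N) * √(cd F)) : ℝ) := by positivity
  calc _ ≤ ∑ i : ι, ((if i = i₀ then g * (cd F + C₂ * √(cd F)) else 0) +
        g * (C₂ * (1 + N) * √(cd F))) := by
        apply Finset.sum_le_sum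
        intro i _
        by_cases hi : i = i₀
        · rw [if_pos hi, hi, h2]
          have : ∑ t : F, DD f (z1 k g) t ≤ g * (cd F + C₂ * √(cd F)) := by
            simp only [DD_z1 h.mon h.deg]
            rw [Finset.sum_comm]
            calc _ ≤ ∑ j ∈ Finset.Icc 1 g, (cd F + C₂ * √(cd F)) :=
                  Finset.sum_le_sum fun j hj => hC.a1 j hj
              _ = _ := by simp; ring
          linarith
        · rw [if_neg hi, zero_add]
          have := (abs_le.1 (sum_DD h hC (r i).ne_zero (hsq i) (fun h0 => hi (h1 i h0)) (hc i)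
            (hN i) 1 one_ne_zero)).2
          simpa [chi_one] using this
    _ = _ := by
        rw [Finset.sum_add_distrib, Finset.sum_const, Finset.card_univ, nsmul_eq_mul,
          Finset.sum_ite_eq' Finset.univ i₀, if_pos (Finset.mem_univ _)]

theorem sgn_eq (t : F) (f : k[X][X]) : chi (aeval t (C ((-1) ^ g) * dsc g f)) =
    chi ((-1 : F) ^ g) * chi (aeval t (dsc g f)) := by
  rw [map_mul, chi_mul, aeval_C]
  simp

theorem abs_chi_pm : |chi ((-1 : F) ^ g)| ≤ 1 := abs_le.2 ⟨le_chi _, chi_le _⟩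

theorem dsc_ne (hF : Fm g N₀ ρ f) : dsc g f ≠ 0 := hF.fam.sq.ne_zero

theorem sum_sXX (hF : Fm g N₀ ρ f) (h : IsGen g K f θ) {C₂ : ℕ} (hC : WU K L g f θ C₂ F)
    {r : ι → Lˣ} {z : ι → Fin (2 * g + 1) → k[X]} {N : ℕ} {i₀ : ι}
    (hc : ∀ i, Crd g θ (z i) (r i : L)) (hN : ∀ i l, (z i l).natDegree ≤ N)
    (hsq : ∀ i, IsSquare (Algebra.norm K (r i : L))) (h1 : ∀ i, IsSquare (r i : L) → i = i₀)
    (h2 : z i₀ = z1 k g) :
    -(∑ t : F, chi (aeval t (C ((-1) ^ g) * dsc g f)) * XX f z t) ≤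
      Fintype.card ι * (g * (C₂ * (1 + N + (dsc g f).natDegree) * √(cd F))) := by
  unfold XX
  simp only [Finset.mul_sum]
  rw [Finset.sum_comm, ← Finset.sum_neg_distrib]
  have hb : (C ((-1 : k) ^ g) * dsc g f : k[X]) ≠ 0 :=
    mul_ne_zero (by rw [Ne, C_eq_zero]; exact pow_ne_zero _ (neg_ne_zero.2 one_ne_zero))
      (dsc_ne hF)
  have hbd : (C ((-1 : k) ^ g) * dsc g f : k[X]).natDegree = (dsc g f).natDegree :=
    natDegree_C_mul (pow_ne_zero _ (neg_ne_zero.2 one_ne_zero))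
  calc _ ≤ ∑ i : ι, (g * (C₂ * (1 + N + (dsc g f).natDegree) * √(cd F)) : ℝ) := by
        apply Finset.sum_le_sum
        intro i _
        by_cases hi : i = i₀
        · rw [hi, h2]
          have e : ∑ t : F, chi (aeval t (C ((-1) ^ g) * dsc g f)) * DD f (z1 k g) t =
              chi ((-1 : F) ^ g) * ∑ j ∈ Finset.Icc 1 g, ∑ t : F, chi (aeval t (dsc g f)) *
                ((FacR (evt (k := k) t) f (cj g j)).ncard : ℝ) := by
            rw [Finset.sum_comm, Finset.mul_sum]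
            refine Finset.sum_congr rfl fun t _ => ?_
            rw [DD_z1 h.mon h.deg, sgn_eq, mul_assoc, Finset.mul_sum]
          rw [e]
          have h3 : |∑ j ∈ Finset.Icc 1 g, ∑ t : F, chi (aeval t (dsc g f)) *
                ((FacR (evt (k := k) t) f (cj g j)).ncard : ℝ)| ≤
              g * (C₂ * (1 + (dsc g f).natDegree) * √(cd F)) := by
            refine (Finset.abs_sum_le_sum_abs _ _).trans ?_
            calc _ ≤ ∑ j ∈ Finset.Icc 1 g, (C₂ * (1 + (dsc g f).natDegree) * √(cd F) : ℝ) :=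
                  Finset.sum_le_sum fun j hj => hC.a2 j hj
              _ = _ := by simp
          have h4 := abs_mul (chi ((-1 : F) ^ g)) (∑ j ∈ Finset.Icc 1 g, ∑ t : F,
            chi (aeval t (dsc g f)) * ((FacR (evt (k := k) t) f (cj g j)).ncard : ℝ))
          have h5 := mul_le_mul (abs_chi_pm (F := F) (g := g)) h3 (abs_nonneg _) zero_le_one
          rw [← h4, one_mul] at h5
          have h6 := (abs_le.1 h5).1
          have h7 : (g * (C₂ * (1 + (dsc g f).natDegree) * √(cd F)) : ℝ) ≤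
              g * (C₂ * (1 + N + (dsc g f).natDegree) * √(cd F)) := by
            gcongr
            have : (0 : ℝ) ≤ N := Nat.cast_nonneg _
            linarith
          linarith
        · have := (abs_le.1 (sum_DD h hC (r i).ne_zero (hsq i) (fun h0 => hi (h1 i h0)) (hc i)
            (hN i) _ hb)).1
          rw [hbd] at this
          linarith
    _ = _ := by rw [Finset.sum_const, Finset.card_univ, nsmul_eq_mul]

theorem sum_ZZ (h : IsGen g K f θ) {r : ι → Lˣ} {z : ι → Fin (2 * g + 1) → k[X]} {N : ℕ}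
    (hc : ∀ i, Crd g θ (z i) (r i : L)) (hN : ∀ i l, (z i l).natDegree ≤ N) :
    ∑ t : F, ZZ f z t ≤ Fintype.card ι * (((4 * g + 1) * (N + cdg f) : ℕ) : ℝ) := by
  have hfd : FiniteDimensional K L := Module.finite_of_finrank_pos (by rw [h.rank]; omega)
  unfold ZZ
  rw [Finset.sum_comm]
  calc _ ≤ ∑ i : ι, (((4 * g + 1) * (N + cdg f) : ℕ) : ℝ) := by
        apply Finset.sum_le_sum
        intro i _
        rw [Finset.sum_boole]
        have hne : nrm f (z i) ≠ 0 := by
          intro h0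
          have := norm_crd h (hc i)
          rw [h0, map_zero, Algebra.norm_eq_zero_iff] at this
          exact (r i).ne_zero this
        have h1 : (Finset.univ.filter fun t : F =>
            nv (f.map (evt (k := k) t)) (zp (evt (k := k) t) (z i)) = 0) ⊆
            Finset.univ.filter fun t : F => aeval t (nrm f (z i)) = 0 := by
          intro t ht
          rw [Finset.mem_filter] at ht ⊢
          refine ⟨Finset.mem_univ _, ?_⟩
          rw [← nrm_map h.mon h.deg] at ht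
          exact ht.2
        exact_mod_cast (Finset.card_le_card h1).trans
          ((card_zeros hne).trans (natDegree_nrm f (z i) N (cdg f) (hN i) (le_cdg f)))
    _ = _ := by rw [Finset.sum_const, Finset.card_univ, nsmul_eq_mul]

end sums

end Run7.h784.TG
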