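import Pool.Agent.Run7.h784.TG.Stm

/-!
# Project TG: statements of the pieces, counting side (helper784)
-/

set_option autoImplicit false
set_option linter.all false

open Polynomial IsDedekindDomain
open scoped Classical

namespace Run7.h784.TG

open Pool.Agent.N874.PP (Ov Ev Sq1 S_CLS)
open Pool.Agent.N352.PJ (IsGen Crd LocIm SelZero Fam GoodR Ht dsc)
open Run7.h875.TS (chi cd IsPC GSq irrD dg NRs uT sqf prD sqL sz Tr S_DOUBLE S_TRS)

/-! ### Curves -/

/-- **MODEL** (about 500 lines). Plane models of the curves of factorisations.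

Proof. Let `θ_1, .., θ_n` be the roots of `f` in an algebraic closure of `K = k(X)`. A colouring `κ` of the
`n` roots with `c i` roots of colour `i` gives the tuple `a_i(κ) = ∏_{κ(j) = i} (X - θ_j)`. Let `a_ij(κ)` be their
coefficients (integral over `k[X]`). Choose `e_ij ∈ k[X]` with the `y_κ = ∑ e_ij a_ij(κ)` pairwise different
(`k[X]` is infinite), `H = ∏_κ (Y - y_κ)`, in `k[X][Y]` (symmetric, integral). Over `k'` algebraically closed
the Galois group permutes the `y_κ` transitively (`Full`), so `H` is irreducible. Lagrange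
interpolation gives `A_ij` with `A_ij(y_κ) = D a_ij(κ)`, `D` a common multiple of denominators, of `dsc`
and of a `C D = A H + B H'`. For `φ : k[X] → W` with `φ D ≠ 0`: the identities
`∏ (D X ^ c_i + ∑ A_ij X ^ j) ≡ D ^ l f` and `D Y ≡ ∑ e_ij A_ij` modulo `H` show that `mdl` maps zeros of `H` to
factorisations, injectively, and `y ∈ W` if the factors are over `W`; over the algebraic closure of `W`
both sides have the multinomial coefficient as number of elements. -/
def P_MODEL : Prop := ∀ (k : Type) [Field k] [Finite k] (g N : ℕ) (r : k[X]) (f : k[X][X]),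
  Fm g N r f → Full f → ∀ (l : ℕ) (c : Fin l → ℕ), (∀ i, 1 ≤ c i) → ∑ i, c i = 2 * g + 1 →
  ∃ (H : k[X][X]) (D : k[X]) (A : Fin l → ℕ → k[X][X]), IsMd f c H D A

/-- **NSQ** (about 450 lines). Nonsquares.

Proof. Let `M` be the splitting field of `f` over `k'(X)`, Galois group `S_n`; the function field of `H`
embeds in `M` (a zero `y` of `H` in `M` with `D ≠ 0`), `mdl` gives a colouring, let `s` be the set of the roots
with colours in `B`, `α_s = ∏_{θ ∈ s} α(θ)`, `|s|` even, `0 < |s| < n`. If `GSq`, then `b α_s` is a square in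
`M`. For `i ∈ s`, `j ∉ s` the product of `b α_s` and its image under the transposition `(i j)` is a square, so
`α(θ_i) α(θ_j)` is a square in `M`; so this holds for all `i, j` (`S_n`), and as the norm
`∏ α(θ_i)` is a square and `n` is odd, `α(θ_1)` is a square in `M`. The group of `M / k'(X)(θ_1)` is
`S_{n-1}`, whose only subgroup of index two is the alternating group, so `α(θ_1) = γ ^ 2` or
`dsc γ ^ 2` up to sign, `γ ∈ k'(X)(θ_1)`. The norm excludes the second case (`dsc` is not a square in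
`k'(X)`, it is squarefree and not constant). Descent from `k'` to `k` (see `S_NSQ` of TS, its proof): `α` is a
constant times a square in `L`, with the norm `α` is a square. -/
def P_NSQ : Prop := ∀ (k : Type) [Field k] [Finite k] (g N : ℕ) (r : k[X]) (f : k[X][X]),
  Fm g N r f → Full f → ∀ (l : ℕ) (c : Fin l → ℕ), (∀ i, 1 ≤ c i) → ∑ i, c i = 2 * g + 1 →
  ∀ (H : k[X][X]) (D : k[X]) (A : Fin l → ℕ → k[X][X]), IsMd f c H D A →
  ∀ B : Finset (Fin l), B.Nonempty → Even (∑ i ∈ B, c i) →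
  ∀ (K L : Type) [Field K] [Algebra k[X] K] [IsFractionRing k[X] K]
    [Field L] [Algebra K L] [Algebra k[X] L] [IsScalarTower k[X] K L] (θ : L), IsGen g K f θ →
  ∀ (α : L) (z : Fin (2 * g + 1) → k[X]), α ≠ 0 → IsSquare (Algebra.norm K α) → ¬ IsSquare α →
    Crd g θ z α → ∀ (b : k[X]) (G : k[X][X]) (e : ℕ), b ≠ 0 →
    (∀ (W : Type) [Field W] (φ : k[X] →+* W) (y : W), φ D ≠ 0 → eval₂ φ y H = 0 →
      eval₂ φ y G = φ b * φ D ^ (2 * e) * nv (∏ i ∈ B, mdl φ c D A y i) (zp φ z)) →
    ∀ (k' : Type) [Field k'] [IsAlgClosed k'] [Algebra k k'] [Algebra.IsAlgebraic k k'],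
      ¬ GSq k' H G

/-- **NSQ2** (about 300 lines). Polynomials in `t` which are not squares in the function fields.

Proof. As in NSQ, `b` would be a square in the subfield `E` of `M` fixed by the stabiliser of the
colouring. (i) `b = dsc`: if `E` contains `√dsc` then the stabiliser is in the alternating group; but it
contains a transposition, as some `c i ≥ 2`. (ii) `b` squarefree prime to `dsc`, `τ ∈ k'` a zero of `b`: `f` has
distinct zeros at `τ`, so (Hensel) `M` embeds in `k'((X - τ))`, where `b` has valuation one. -/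
def P_NSQ2 : Prop := ∀ (k : Type) [Field k] [Finite k] (g N : ℕ) (r : k[X]) (f : k[X][X]),
  Fm g N r f → Full f → ∀ (l : ℕ) (c : Fin l → ℕ), (∀ i, 1 ≤ c i) → ∑ i, c i = 2 * g + 1 →
  ∀ (H : k[X][X]) (D : k[X]) (A : Fin l → ℕ → k[X][X]), IsMd f c H D A →
  ∀ b : k[X], ((b = dsc g f ∧ ∃ i, 2 ≤ c i) ∨
    (Squarefree b ∧ IsCoprime b (dsc g f) ∧ 0 < b.natDegree)) →
    ∀ (k' : Type) [Field k'] [IsAlgClosed k'] [Algebra k k'] [Algebra.IsAlgebraic k k'],
      ¬ GSq k' H (C b)

/-- **W** (about 350 lines, from MODEL, NSQ, NSQ2, `S_DOUBLE` (proved, Run7/h984/TS/Double.lean)). The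
estimates needed.

Proof. Only finitely many pairs `(l, c)`. Only the `t` with `D(t) = 0` are exceptional (the number of
factorisations is bounded). For the last part: `D ^ (2 e) nv(∏_{i ∈ B} a_i, z)` is a polynomial in the
`A_ij`, `D`, `z` (a determinant: the resultant), linear growth in the degree of `z`; reduce it modulo `H`
(monic), multiply by `b`. -/
def P_W : Prop := ∀ (k : Type) [Field k] [Finite k] (g N : ℕ) (r : k[X]) (f : k[X][X]),
  Fm g N r f → Full f → ∃ C₀ : ℕ, ∀ (l : ℕ) (c : Fin l → ℕ), (∀ i, 1 ≤ c i) →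
  ∑ i, c i = 2 * g + 1 →
  (∀ (F : Type) [Field F] [Fintype F] [Algebra k F],
    |(∑ t : F, ((FacR (evt (k := k) t) f c).ncard : ℝ)) - cd F| ≤ C₀ * √(cd F)) ∧
  (∀ b : k[X], ((b = dsc g f ∧ ∃ i, 2 ≤ c i) ∨
    (Squarefree b ∧ IsCoprime b (dsc g f) ∧ 0 < b.natDegree)) →
    ∀ (F : Type) [Field F] [Fintype F] [Algebra k F],
      |∑ t : F, chi (aeval t b) * ((FacR (evt (k := k) t) f c).ncard : ℝ)| ≤
        C₀ * (1 + b.natDegree) * √(cd F)) ∧
  ∀ B : Finset (Fin l), B.Nonempty → Even (∑ i ∈ B, c i) →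
  ∀ (K L : Type) [Field K] [Algebra k[X] K] [IsFractionRing k[X] K]
    [Field L] [Algebra K L] [Algebra k[X] L] [IsScalarTower k[X] K L] (θ : L), IsGen g K f θ →
  ∀ (α : L) (z : Fin (2 * g + 1) → k[X]) (N' : ℕ), α ≠ 0 → IsSquare (Algebra.norm K α) →
    ¬ IsSquare α → Crd g θ z α → (∀ i, (z i).natDegree ≤ N') → ∀ b : k[X], b ≠ 0 →
    ∀ (F : Type) [Field F] [Fintype F] [Algebra k F],
      |∑ t : F, chi (aeval t b) * ∑ᶠ a ∈ FacR (evt (k := k) t) f c,
        chi (nv (∏ i ∈ B, a i) (zp (evt (k := k) t) z))| ≤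
          C₀ * (1 + N' + b.natDegree) * √(cd F)

/-- **STK** (about 150 lines). Stickelberger: the parity of the number of factors. (The discriminant is
`(-1) ^ g dsc`; the Frobenius map is an even permutation of the `n` roots if and only if `n - nf` is even.
Search the tree for `Stickelberger`; project PJ and TS have special cases.) -/
def P_STK : Prop := ∀ (k F : Type) [Field k] [Finite k] [Field F] [Fintype F] [Algebra k F]
  (g N : ℕ) (r : k[X]) (f : k[X][X]) (t : F), Fm g N r f → aeval t (dsc g f) ≠ 0 →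
  1 ≤ nf f t ∧ Squarefree (f.map (evt (k := k) t)) ∧
  chi (aeval t (C ((-1) ^ g) * dsc g f)) = (-1) ^ (nf f t + 1)

/-- **COMB** (about 200 lines). Irreducibility by inclusion and exclusion over the factorisations.

Proof. With `N` irreducible factors (all different) the inner sum is the number of surjections from
`N` to `l` elements, `∑_l (-1) ^ (l+1) / l * Surj(N, l) = 1` if `N = 1`, `0` otherwise (`Surj(N, l)` is
`∑_j (-1) ^ (l-j) (l choose j) j ^ N`; or by induction: `Surj(N+1, l) = l (Surj(N, l) + Surj(N, l-1))`,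
a telescoping sum). -/
def P_COMB : Prop :=
  (∀ (F : Type) [Field F] (p : F[X]) (m : ℕ), p.Monic → Squarefree p → p.natDegree = m → 1 ≤ m →
    (if Irreducible p then (1 : ℝ) else 0) = ∑ l ∈ Finset.Icc 1 m, (-1 : ℝ) ^ (l + 1) / l *
      ∑ c ∈ cmp m l, ({a : Fin l → F[X] |
        (∀ i, (a i).Monic ∧ (a i).natDegree = c i) ∧ ∏ i, a i = p}.ncard : ℝ)) ∧
  ∀ m : ℕ, 1 ≤ m → ∑ l ∈ Finset.Icc 1 m, (-1 : ℝ) ^ (l + 1) / l * ((cmp m l).card : ℝ) = 1 / m

/-- **DIC** (about 350 lines, from LOCQ and its proof). The dictionary between the primes over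
`Q = minpoly t` and the factors of `f` at `t`.

Proof. `F = k(t) = k[X] / Q`; the primes over `Q` correspond to the irreducible factors `p` of `f(t, ·)`, with
residue field `F[x] / (p)`, in which the class of `α` is `z(t, x)`; its norm to `F` is `nv p z`; an
element of a finite field is a square iff its norm is. The product over all `p` is the norm of `α` at `t`,
a square. The monic divisors `a` are the products of the `p` in a subset; half of the `2 ^ nf` subsets
give an even degree (some `p` has odd degree). If `α` is trivial all `χ(nv a z)` are 1. Otherwise the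
character `a ↦ χ(nv a z)` of the group of all subsets is trivial on the full set but not trivial; if
it were trivial on the subsets of even degree, it would be trivial on the complements too, so on all. -/
def P_DIC : Prop := ∀ (k K L O : Type) [Field k] [Finite k] [Field K] [Algebra k[X] K]
  [IsFractionRing k[X] K]
  [Field L] [Algebra K L] [Algebra k[X] L] [IsScalarTower k[X] K L] [CommRing O]
  [IsDedekindDomain O] [Algebra O L] [IsFractionRing O L] [Algebra k[X] O]
  [IsScalarTower k[X] O L] [IsIntegralClosure O k[X] L] (g N : ℕ) (r : k[X]) (f : k[X][X]) (θ : L),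
  Fm g N r f → IsGen g K f θ → ∀ (F : Type) [Field F] [Fintype F] [Algebra k F] (t : F),
  (minpoly k t).natDegree = Module.finrank k F → ¬ minpoly k t ∣ dsc g f →
  nr O (minpoly k t) = nf f t ∧ (evd f t).Finite ∧ (evd f t).ncard = 2 ^ (nf f t - 1) ∧
  ∀ (α : L) (z : Fin (2 * g + 1) → k[X]), α ≠ 0 → IsSquare (Algebra.norm K α) → Crd g θ z α →
    nv (f.map (evt (k := k) t)) (zp (evt (k := k) t) z) ≠ 0 →
    (∀ 𝔓 : HeightOneSpectrum O, Ov (minpoly k t) 𝔓 → Ev 𝔓 α) ∧
    (Tr O (minpoly k t) α → ∀ a ∈ evd f t, chi (nv a (zp (evt (k := k) t) z)) = 1) ∧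
    (¬ Tr O (minpoly k t) α → ∑ᶠ a ∈ evd f t, chi (nv a (zp (evt (k := k) t) z)) = 0)

/-! ### Moments -/

/-- **ONE** (about 450 lines, from W, STK, `S_TRS`, DIC, STEP, GRP, REP; compare `S_ONE` of TS, proved in
Run7/h784/TS/One.lean). The average of the order of the Selmer group after one step.

Proof. Let `G = SelG S u`, `s` its order modulo squares, `z_α` small representatives (REP), `F` as in
`S_TRS`, `t` in `F` of degree `m` with `dsc(t) ≠ 0`, `Q = minpoly t` not in `S`, `ρ = nf f t - 1`,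
`sgn = χ((-1) ^ g dsc(t)) = (-1) ^ ρ`, `X(t) = ∑_α ∑_{a ∈ evd f t, a ≠ 1} χ(nv a z_α)`. Up to an error
`≤ 2 ^ (2g+2) #{α : nv (f_t) (z_α) = 0}` (sum over `t` is `≤ s C (1 + dg S)`, zeros of the norms)
`2 ^ ρ sz (G ⊓ T) = s + X(t)` (DIC), so `X ≥ 0` by STEP. If `ρ` is even: `sz G' ≤ 2 ^ ρ sz (G ⊓ T) = s + X`. If
`ρ` is odd and `G` is not in `T`: `2 sz (G ⊓ T) ≤ s`, `sz G' ≤ 2 ^ ρ sz (G ⊓ T) ^ 2 / s ≤ (s + X) / 2`; if
`G ≤ T`, then `X = (2 ^ ρ - 1) s ≥ s`, `sz G' ≤ 2 ^ ρ s = s + X ≤ s / 2 + 3 X / 2`. So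
`sz G' ≤ s (3 + sgn) / 4 + X (5 - sgn) / 4` in all cases. Sum over `t`: `evd f t` without `1` is the union over
even `d`, `2 ≤ d ≤ 2 g`, of the `FacR` for `c = ![d, n - d]`, `B = {0}`; W for `b = 1` and `b = dsc`. The class
of the squares (`z = 1`) gives `5 g / 4`. Exceptional `t` (smaller degree, `dsc(t) = 0`, `Q` in `S`) as in TS. -/
def P_ONE : Prop := ∀ (k K L O : Type) [Field k] [Finite k] [Field K] [Algebra k[X] K]
  [IsFractionRing k[X] K]
  [Field L] [Algebra K L] [Algebra k[X] L] [IsScalarTower k[X] K L] [CommRing O]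
  [IsDedekindDomain O] [Algebra O L] [IsFractionRing O L] [Algebra k[X] O]
  [IsScalarTower k[X] O L] [IsIntegralClosure O k[X] L] (g N : ℕ) (r : k[X]) (f : k[X][X]) (θ : L),
  Fm g N r f → Full f → IsGen g K f θ →
  ∃ C₀ : ℕ, ∀ (S : Finset k[X]) (u : k[X] → k[X]), GoodT g f S u → ∀ w : k[X] → k[X],
    (∀ Q : k[X], Irreducible Q → ¬ Q ∣ w Q) → ∀ m : ℕ, 0 < m →
    (m : ℝ) * ∑ Q ∈ (irrD k m).filter (fun Q => Q ∉ S ∧ ¬ Q ∣ dsc g f),
        (sz (SelG O K f θ (insert Q S) (Function.update u Q (w Q))) : ℝ) ≤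
      (3 / 4 * sz (SelG O K f θ S u) + 5 / 4 * g) * (Nat.card k : ℝ) ^ m +
        C₀ * (1 + dg S) * √((Nat.card k : ℝ) ^ m) * sz (SelG O K f θ S u)

/-- **AVG** (about 350 lines, from ONE, STEP, REP, GRP; adapt the proof of `S_AVG` of TS). The average
over all `D` of degree `N'` and all choices of local classes is bounded. -/
def P_AVG : Prop := ∀ (k K L O : Type) [Field k] [Finite k] [Field K] [Algebra k[X] K]
  [IsFractionRing k[X] K]
  [Field L] [Algebra K L] [Algebra k[X] L] [IsScalarTower k[X] K L] [CommRing O]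
  [IsDedekindDomain O] [Algebra O L] [IsFractionRing O L] [Algebra k[X] O]
  [IsScalarTower k[X] O L] [IsIntegralClosure O k[X] L] (g N : ℕ) (r : k[X]) (f : k[X][X]) (θ : L),
  Fm g N r f → Full f → IsGen g K f θ → ∀ nrs : k[X] → k[X], NRs nrs → ∃ B : ℝ, ∀ N' : ℕ,
    ∑ᶠ D ∈ sqf (dsc g f) N', (1 / 2 : ℝ) ^ (prD D).card *
      ∑ T ∈ (prD D).powerset, (sz (SelG O K f θ (prD D) (uT nrs T)) : ℝ) ≤
        B * (Nat.card k : ℝ) ^ N'

/-- **KILL** (about 400 lines, from W, STK, `S_TRS`, DIC, COMB). Many primes `Q` with exactly two primes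
over them at which `α` is not trivial.

Proof. For `t` with `dsc(t) ≠ 0`, `nf f t = 2` exactly one irreducible factor `a` of `f(t, ·)` has even degree,
`b = f / a`, and `α` is not trivial at `Q` iff `χ(nv a z) = -1` (DIC: `evd = {1, a}`). So count
`∑_{(a, b)} 1[a irreducible] 1[b irreducible] (1 - χ(nv a z)) / 2` over the factorisations with `deg a = d`
even, `2 ≤ d ≤ 2 g`; insert COMB for `a` and `b`: sums over `FacR` for the concatenation of a composition of
`d` and one of `n - d`, `B` the indices of the first. By W the main term is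
`|F| / 2 * ∑_d 1 / (d (n - d)) > 0`. Zeros of the norm of `α`: at most `C (1 + N')` values `t`. -/
def P_KILL : Prop := ∀ (k : Type) [Field k] [Finite k] (g N : ℕ) (r : k[X]) (f : k[X][X]),
  Fm g N r f → Full f → ∃ (c₀ : ℝ) (C₀ : ℕ), 0 < c₀ ∧
    ∀ (K L O : Type) [Field K] [Algebra k[X] K] [IsFractionRing k[X] K]
    [Field L] [Algebra K L] [Algebra k[X] L] [IsScalarTower k[X] K L] [CommRing O]
    [IsDedekindDomain O] [Algebra O L] [IsFractionRing O L] [Algebra k[X] O]
    [IsScalarTower k[X] O L] [IsIntegralClosure O k[X] L] (θ : L), IsGen g K f θ →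
    ∀ (α : L) (z : Fin (2 * g + 1) → k[X]) (N' : ℕ), α ≠ 0 → IsSquare (Algebra.norm K α) →
      ¬ IsSquare α → Crd g θ z α → (∀ i, (z i).natDegree ≤ N') → ∀ m : ℕ, 0 < m →
      c₀ * (Nat.card k : ℝ) ^ m / m - C₀ * (1 + N') * √((Nat.card k : ℝ) ^ m) ≤
        (((irrD k m).filter fun Q => ¬ Q ∣ dsc g f ∧ nr O Q = 2 ∧ ¬ Tr O Q α).card : ℝ)

/-- **LAST** (about 350 lines, from W, `S_TRS`, DIC, COMB; compare `S_LAST` of TS, whose proof has the
quadratic reciprocity). Many primes `Q` with only one prime over them (`f` irreducible modulo `Q`), with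
prescribed quadratic characters modulo the elements of a set `S` of primes. -/
def P_LAST : Prop := ∀ (k : Type) [Field k] [Finite k] (g N : ℕ) (r : k[X]) (f : k[X][X]),
  Fm g N r f → Full f → ∃ (c₀ : ℝ) (C₀ : ℕ), 0 < c₀ ∧
    ∀ (K L O : Type) [Field K] [Algebra k[X] K] [IsFractionRing k[X] K]
    [Field L] [Algebra K L] [Algebra k[X] L] [IsScalarTower k[X] K L] [CommRing O]
    [IsDedekindDomain O] [Algebra O L] [IsFractionRing O L] [Algebra k[X] O]
    [IsScalarTower k[X] O L] [IsIntegralClosure O k[X] L] (θ : L), IsGen g K f θ →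
    ∀ (S : Finset k[X]) (η : k[X] → Prop),
    (∀ P ∈ S, P.Monic ∧ Irreducible P ∧ ¬ P ∣ dsc g f) → ∀ m : ℕ, 0 < m →
      c₀ * (1 / 2) ^ S.card * (Nat.card k : ℝ) ^ m / m -
          C₀ * (1 + dg S) * √((Nat.card k : ℝ) ^ m) ≤
        (((irrD k m).filter fun Q => ¬ Q ∣ dsc g f ∧ nr O Q = 1 ∧ Q ∉ S ∧
          ∀ P ∈ S, (∃ z : k[X], P ∣ z ^ 2 - Q) ↔ η P).card : ℝ)

/-- **SQF3** (about 60 lines). `S_SQF` of TS (proved, Run7/h784/TS/Sqf.lean) also in characteristic 3. -/
def P_SQF3 : Prop := ∀ (k : Type) [Field k] [Finite k], (2 : k) ≠ 0 → ∀ B : k[X], B ≠ 0 →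
  (∀ N, (sqf B N).Finite) ∧ ∃ c : ℝ, 0 < c ∧ ∃ N₀ : ℕ, ∀ N ≥ N₀,
    c * (Nat.card k : ℝ) ^ N ≤ ((sqf B N).ncard : ℝ)

/-- **FIN** (about 500 lines, from AVG, KILL, LAST, STEP, GRP, CLSU, REP, SQF3, CONC; adapt Fin1, Fin2,
Fin3 of Run7/h875/TS, where several curves were treated at once; here only one). The theorem. -/
def P_FIN : Prop := ∀ (k : Type) [Field k] [Finite k] (g N : ℕ) (r : k[X]) (f : k[X][X]),
  Fm g N r f → Full f → ∀ (K : Type) [Field K] [Algebra k[X] K] [IsFractionRing k[X] K],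
  ∃ c : ℝ, 0 < c ∧ ∃ N₀ : ℕ, ∀ m ≥ N₀,
    c * (Nat.card k : ℝ) ^ m ≤
      ({D : k[X] | D.Monic ∧ D.natDegree = m ∧ Squarefree D ∧ IsCoprime D (dsc g f) ∧
        SelZero K (f.scaleRoots D)}.ncard : ℝ)

end Run7.h784.TG
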